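import Pool.Agent.ANO5.Aut.Fuchs
import Pool.Agent.ANO5.Stmt.Defs

/-!
# The components of a diffeomorphism of `S₁ × ⋯ × S_r × N × T^k`

If the fundamental group `G` of `N` has a trivial centre and no direct factor isomorphic to the
fundamental group of one of the `S_i` then the power `F^(r!)` of every homeomorphism `F` of `M` is
homotopic to `(z, y, t) ↦ (f_i z_i, h y, A t + τ z y)`, where `f_i` and `h` are the components of
`F^(r!)` along the factors through a given point.
-/

set_option autoImplicit false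
set_option linter.unusedSectionVars false

open scoped UpperHalfPlane MatrixGroups
open Set

namespace Pool.Agent.ANO5.Aut

open Pool.Agent.ANO2.Stmt (act IsSurfaceGroup)
open Pool.Agent.ANO5.Stmt (X IsDeck IsTwist Homotopic model)

/-- A direct factor in the usual form. -/
theorem exists_equiv_of_fac {K H : Type} [Group K] [Group H] (h : Fac K H) :
    ∃ (B : Type) (_ : Group B), Nonempty (H ≃* K × B) := by
  obtain ⟨s, p, hps, hc⟩ := h
  have hk : ∀ g : H, (s (p g))⁻¹ * g ∈ p.ker := fun g => by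
    rw [MonoidHom.mem_ker, map_mul, map_inv, hps, inv_mul_cancel]
  have hc' : ∀ k (b : p.ker), s k * (b : H) = b * s k := fun k b => hc k b b.2
  refine ⟨p.ker, inferInstance, ⟨{
    toFun := fun g => (p g, ⟨(s (p g))⁻¹ * g, hk g⟩)
    invFun := fun q => s q.1 * q.2
    left_inv := fun g => ?_
    right_inv := fun q => ?_
    map_mul' := fun g g' => ?_ }⟩⟩
  · exact mul_inv_cancel_left _ _
  · have h1 : p (s q.1 * q.2) = q.1 := by
      rw [map_mul, hps, MonoidHom.mem_ker.1 q.2.2, mul_one]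
    refine Prod.ext h1 (Subtype.ext ?_)
    show (s (p (s q.1 * q.2)))⁻¹ * (s q.1 * q.2) = q.2
    rw [h1, inv_mul_cancel_left]
  · refine Prod.ext (map_mul p g g') (Subtype.ext ?_)
    show (s (p (g * g')))⁻¹ * (g * g') = ((s (p g))⁻¹ * g) * ((s (p g'))⁻¹ * g')
    have h1 := hc' ((p g')⁻¹) ⟨_, hk g⟩
    rw [map_inv] at h1
    change (s (p g'))⁻¹ * ((s (p g))⁻¹ * g) = ((s (p g))⁻¹ * g) * (s (p g'))⁻¹ at h1
    rw [map_mul, map_mul, mul_inv_rev]
    calc (s (p g'))⁻¹ * (s (p g))⁻¹ * (g * g')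
        = (s (p g'))⁻¹ * ((s (p g))⁻¹ * g) * g' := by group
      _ = ((s (p g))⁻¹ * g) * (s (p g'))⁻¹ * g' := by rw [h1]
      _ = ((s (p g))⁻¹ * g) * ((s (p g'))⁻¹ * g') := by group

/-- An automorphism of a group of permutations. -/
theorem exists_mulAut {P Q : Type} [Group P] [Group Q] (ρ : P →* Q) (hρ : Function.Injective ρ)
    (c : MulAut Q) (h1 : ∀ x, ∃ y, ρ y = c (ρ x)) (h2 : ∀ y, ∃ x, c (ρ x) = ρ y) :
    ∃ φ : MulAut P, ∀ x, ρ (φ x) = c (ρ x) := by
  choose f hf using h1
  have hmul : ∀ x y, f (x * y) = f x * f y := fun x y => hρ (by rw [hf, map_mul, map_mul, map_mul,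
    hf, hf])
  have hbij : Function.Bijective f := by
    constructor
    · intro x y h
      have h3 : c (ρ x) = c (ρ y) := by rw [← hf, ← hf, h]
      exact hρ (c.injective h3)
    · intro y
      obtain ⟨x, hx⟩ := h2 y
      exact ⟨x, hρ (by rw [hf, hx])⟩
  exact ⟨MulEquiv.ofBijective (MulHom.mk f hmul) hbij, fun x => hf x⟩

theorem mulAut_pow {P Q : Type} [Group P] [Group Q] {ρ : P →* Q} {c : MulAut Q} {φ : MulAut P}
    (h : ∀ x, ρ (φ x) = c (ρ x)) (n : ℕ) (x : P) :
    ρ ((φ ^ n : MulAut P) x) = (c ^ n : MulAut Q) (ρ x) := by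
  induction n generalizing x with
  | zero => rfl
  | succ n ih =>
    rw [pow_succ, pow_succ]
    show ρ ((φ ^ n : MulAut P) (φ x)) = (c ^ n : MulAut Q) (c (ρ x))
    rw [ih, h]

/-- The value of a component under an automorphism which preserves the factors. -/
theorem Per.apply {ι : Type} [Fintype ι] [DecidableEq ι] {G : ι → Type} [∀ i, Group (G i)]
    {Z : Type} [CommGroup Z] {φ : MulAut ((∀ i, G i) × Z)} (h : Per φ (1 : Equiv.Perm ι))
    (x : (∀ i, G i) × Z) (a : ι) : (φ x).1 a = (φ (inc a (x.1 a))).1 a := by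
  let f : ((∀ i, G i) × Z) →* G a := (prj a).comp φ.toMonoidHom
  let e : ((∀ i, G i) × Z) →* ((∀ i, G i) × Z) :=
    { toFun := fun x => inc a (x.1 a)
      map_one' := Prod.ext (Pi.mulSingle_one a) rfl
      map_mul' := fun x y => inc_mul a _ _ }
  have h1 := mem_of_inc (f.eqLocus (f.comp e)) (fun i g => ?_) (fun v => ?_) x
  · exact h1
  · show (φ (inc i g)).1 a = (φ (inc a ((inc i g : (∀ i, G i) × Z).1 a))).1 a
    by_cases hi : a = i
    · subst hi
      rw [inc_same]
    · rw [inc_of_ne hi, h.1 i g a hi]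
      have h2 : (inc a 1 : (∀ i, G i) × Z) = 1 := Prod.ext (Pi.mulSingle_one a) rfl
      rw [h2, map_one]
      rfl
  · show (φ (incZ v)).1 a = (φ (inc a ((incZ v : (∀ i, G i) × Z).1 a))).1 a
    have h2 : (inc a ((incZ v : (∀ i, G i) × Z).1 a) : (∀ i, G i) × Z) = 1 :=
      Prod.ext (Pi.mulSingle_one a) rfl
    rw [h2, map_one, h.2]
    rfl

section Deck

variable {W : Type} {r k : ℕ} (Γ : Fin r → Subgroup SL(2, ℝ)) (G : Subgroup (Equiv.Perm W))

/-- The groups of the factors. -/
def Gp : Option (Fin r) → Type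
  | none => G
  | some i => bar (Γ i)

noncomputable instance instGroupGp : ∀ a, Group (Gp Γ G a)
  | none => inferInstanceAs (Group G)
  | some i => inferInstanceAs (Group (bar (Γ i)))

/-- The translations of the torus factor. -/
abbrev Tr (k : ℕ) : Type := Multiplicative (Fin k → ℤ)

/-- The fundamental group of `M`. -/
abbrev Pi1 (k : ℕ) : Type := (∀ a, Gp Γ G a) × Tr k

/-- The `i`-th component. -/
def cS (g : Pi1 Γ G k) (i : Fin r) : bar (Γ i) := g.1 (some i)

/-- The component in `N`. -/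
def cN (g : Pi1 Γ G k) : G := g.1 none

/-- The translation vector. -/
def cT (g : Pi1 Γ G k) : Fin k → ℤ := Multiplicative.toAdd g.2

variable {Γ G}

theorem cS_mul (g g' : Pi1 Γ G k) (i : Fin r) : cS Γ G (g * g') i = cS Γ G g i * cS Γ G g' i :=
  rfl

theorem cN_mul (g g' : Pi1 Γ G k) : cN Γ G (g * g') = cN Γ G g * cN Γ G g' := rfl

theorem cT_mul (g g' : Pi1 Γ G k) : cT Γ G (g * g') = cT Γ G g + cT Γ G g' := rfl

variable (Γ G) in
/-- The action of the fundamental group. -/
noncomputable def ρ : Pi1 Γ G k →* Equiv.Perm (X W r k) where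
  toFun g :=
    { toFun := fun p => (fun i => (cS Γ G g i).1 (p.1 i), (cN Γ G g).1 p.2.1,
        fun j => p.2.2 j + cT Γ G g j)
      invFun := fun p => (fun i => (cS Γ G g i).1.symm (p.1 i), (cN Γ G g).1.symm p.2.1,
        fun j => p.2.2 j - cT Γ G g j)
      left_inv := fun p => by
        refine Prod.ext (funext fun i => ?_) (Prod.ext ?_ (funext fun j => ?_))
        · exact Equiv.symm_apply_apply _ _
        · exact Equiv.symm_apply_apply _ _
        · exact add_sub_cancel_right _ _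
      right_inv := fun p => by
        refine Prod.ext (funext fun i => ?_) (Prod.ext ?_ (funext fun j => ?_))
        · exact Equiv.apply_symm_apply _ _
        · exact Equiv.apply_symm_apply _ _
        · exact sub_add_cancel _ _ }
  map_one' := by
    refine Equiv.ext fun p => ?_
    refine Prod.ext (funext fun i => rfl) (Prod.ext rfl (funext fun j => ?_))
    show p.2.2 j + ((0 : ℤ) : ℝ) = p.2.2 j
    rw [Int.cast_zero, add_zero]
  map_mul' g g' := by
    refine Equiv.ext fun p => ?_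
    refine Prod.ext (funext fun i => rfl) (Prod.ext rfl (funext fun j => ?_))
    show p.2.2 j + ((cT Γ G g j + cT Γ G g' j : ℤ) : ℝ) = (p.2.2 j + cT Γ G g' j) + cT Γ G g j
    push_cast
    ring

theorem ρ_apply (g : Pi1 Γ G k) (p : X W r k) :
    ρ Γ G g p = (fun i => (cS Γ G g i).1 (p.1 i), (cN Γ G g).1 p.2.1,
      fun j => p.2.2 j + cT Γ G g j) := rfl

theorem ρ_injective [Nonempty W] : Function.Injective (ρ Γ G : Pi1 Γ G k → _) := by
  obtain ⟨y₀⟩ := ‹Nonempty W›
  intro g g' h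
  have h1 : ∀ p : X W r k, ρ Γ G g p = ρ Γ G g' p := fun p => by rw [h]
  refine Prod.ext (funext fun a => ?_) ?_
  · cases a with
    | some i =>
      refine Subtype.ext (Equiv.ext fun z => ?_)
      exact congrFun (congrArg Prod.fst (h1 (fun _ => z, y₀, 0))) i
    | none =>
      refine Subtype.ext (Equiv.ext fun y => ?_)
      exact congrArg (fun q => q.2.1) (h1 (fun _ => UpperHalfPlane.I, y, 0))
  · show (cT Γ G g : Fin k → ℤ) = cT Γ G g'
    funext j
    have h2 := congrFun (congrArg (fun q => q.2.2) (h1 (fun _ => UpperHalfPlane.I, y₀, 0))) j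
    change (0 : ℝ) + cT Γ G g j = 0 + cT Γ G g' j at h2
    rw [zero_add, zero_add] at h2
    exact_mod_cast h2

theorem isDeck_ρ (g : Pi1 Γ G k) : IsDeck Γ G (ρ Γ G g) := by
  choose γ hγ h using fun i => mem_bar.1 (cS Γ G g i).2
  exact ⟨γ, (cN Γ G g).1, cT Γ G g, hγ, (cN Γ G g).2, fun p => by
    rw [ρ_apply]
    refine Prod.ext (funext fun i => h i _) rfl⟩

theorem exists_ρ {g : X W r k → X W r k} (hg : IsDeck Γ G g) :
    ∃ u : Pi1 Γ G k, g = ρ Γ G u := by
  obtain ⟨γ, δ, v, hγ, hδ, h⟩ := hg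
  refine ⟨(fun a => match a with
    | none => (⟨δ, hδ⟩ : G)
    | some i => (⟨MulAction.toPerm (γ i), mem_bar.2 ⟨γ i, hγ i, fun _ => rfl⟩⟩ : bar (Γ i)),
    Multiplicative.ofAdd v), funext fun p => ?_⟩
  rw [h, ρ_apply]
  rfl

end Deck

section Main

variable {W : Type} {r k : ℕ} {Γ : Fin r → Subgroup SL(2, ℝ)} {G : Subgroup (Equiv.Perm W)}

/-- `F` is a bijection with the inverse `F'`, it normalises the deck group. -/
structure IsNormalizer (Γ : Fin r → Subgroup SL(2, ℝ)) (G : Subgroup (Equiv.Perm W))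
    (F F' : X W r k → X W r k) : Prop where
  left_inv : ∀ p, F' (F p) = p
  right_inv : ∀ p, F (F' p) = p
  normalizes : ∀ g, IsDeck Γ G g → ∃ g', IsDeck Γ G g' ∧ F ∘ g = g' ∘ F
  normalizes' : ∀ g', IsDeck Γ G g' → ∃ g, IsDeck Γ G g ∧ F ∘ g = g' ∘ F

/-- the action of a power of `F` on the fundamental group -/
theorem exists_auto [Nonempty W] {F F' : X W r k → X W r k} (hF : IsNormalizer Γ G F F') :
    ∃ φ : MulAut (Pi1 Γ G k), ∀ (n : ℕ) (u : Pi1 Γ G k),
      F^[n] ∘ ρ Γ G u = ρ Γ G ((φ ^ n : MulAut (Pi1 Γ G k)) u) ∘ F^[n] := by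
  let Fp : Equiv.Perm (X W r k) := ⟨F, F', hF.left_inv, hF.right_inv⟩
  obtain ⟨φ, hφ⟩ := exists_mulAut (ρ Γ G : Pi1 Γ G k →* _) ρ_injective (MulAut.conj Fp)
    (fun u => by
      obtain ⟨g', hg', h1⟩ := hF.normalizes _ (isDeck_ρ u)
      obtain ⟨u', rfl⟩ := exists_ρ hg'
      refine ⟨u', Equiv.ext fun p => ?_⟩
      rw [MulAut.conj_apply]
      show ρ Γ G u' p = F (ρ Γ G u (F' p))
      have h2 := congrFun h1 (F' p)
      rw [Function.comp_apply, Function.comp_apply, hF.right_inv] at h2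
      exact h2.symm)
    (fun u' => by
      obtain ⟨g, hg, h1⟩ := hF.normalizes' _ (isDeck_ρ u')
      obtain ⟨u, rfl⟩ := exists_ρ hg
      refine ⟨u, Equiv.ext fun p => ?_⟩
      rw [MulAut.conj_apply]
      show F (ρ Γ G u (F' p)) = ρ Γ G u' p
      have h2 := congrFun h1 (F' p)
      rw [Function.comp_apply, Function.comp_apply, hF.right_inv] at h2
      exact h2)
  refine ⟨φ, fun n u => funext fun p => ?_⟩
  have h1 := mulAut_pow hφ n u
  rw [← map_pow, MulAut.conj_apply] at h1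
  have h2 : F^[n] = ⇑(Fp ^ n) := Equiv.Perm.iterate_eq_pow Fp n
  rw [Function.comp_apply, Function.comp_apply, h1, h2]
  show (Fp ^ n) (ρ Γ G u p) = (Fp ^ n) (ρ Γ G u ((Fp ^ n).symm ((Fp ^ n) p)))
  rw [Equiv.symm_apply_apply]

/-- the component of `F^(r!)` along the `i`-th surface through `x` -/
noncomputable def compS (F : X W r k → X W r k) (x : X W r k) (i : Fin r) (z : ℍ) : ℍ :=
  (F^[r.factorial] (Function.update x.1 i z, x.2)).1 i

/-- the component of `F^(r!)` along `N` through `x` -/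
noncomputable def compN (F : X W r k → X W r k) (x : X W r k) (y : W) : W :=
  (F^[r.factorial] (x.1, y, x.2.2)).2.1

theorem continuous_compS [TopologicalSpace W] {F : X W r k → X W r k} (hF : Continuous F)
    (x : X W r k) (i : Fin r) : Continuous (compS F x i) := by
  have h1 : Continuous fun z : ℍ => (F^[r.factorial] (Function.update x.1 i z, x.2)).1 :=
    continuous_fst.comp ((hF.iterate _).comp
      ((Continuous.update (f := fun _ : ℍ => x.1) continuous_const i
        (g := fun z : ℍ => z) continuous_id).prodMk continuous_const))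
  exact continuous_pi_iff.1 h1 i

theorem continuous_compN [TopologicalSpace W] {F : X W r k → X W r k} (hF : Continuous F)
    (x : X W r k) : Continuous (compN F x) := by
  refine continuous_fst.comp (continuous_snd.comp ((hF.iterate _).comp ?_))
  exact continuous_const.prodMk (continuous_id.prodMk continuous_const)

/-- The element of the `i`-th surface group. -/
noncomputable def iS (Γ : Fin r → Subgroup SL(2, ℝ)) (G : Subgroup (Equiv.Perm W)) (k : ℕ)
    (i : Fin r) (a : bar (Γ i)) : Pi1 Γ G k := inc (G := Gp Γ G) (some i) a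

/-- The element of the group of `N`. -/
noncomputable def iN (Γ : Fin r → Subgroup SL(2, ℝ)) (G : Subgroup (Equiv.Perm W)) (k : ℕ)
    (δ : G) : Pi1 Γ G k := inc (G := Gp Γ G) none δ

theorem cS_iS (i : Fin r) (a : bar (Γ i)) : cS Γ G (iS Γ G k i a) i = a :=
  inc_same (G := Gp Γ G) (some i) a

theorem cS_iS_ne {i j : Fin r} (h : j ≠ i) (a : bar (Γ i)) : cS Γ G (iS Γ G k i a) j = 1 :=
  inc_of_ne (G := Gp Γ G) (fun h' => h (Option.some_injective _ h')) a

theorem cN_iN (δ : G) : cN Γ G (iN Γ G k δ) = δ := inc_same (G := Gp Γ G) none δ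

theorem ρ_iS (i : Fin r) (a : bar (Γ i)) (q : Fin r → ℍ) (z : ℍ) (w : W × (Fin k → ℝ)) :
    ρ Γ G (iS Γ G k i a) (Function.update q i z, w) = (Function.update q i (a.1 z), w) := by
  rw [ρ_apply]
  refine Prod.ext (funext fun j => ?_) (Prod.ext rfl (funext fun l => ?_))
  · show (cS Γ G (iS Γ G k i a) j).1 (Function.update q i z j) = Function.update q i (a.1 z) j
    by_cases hj : j = i
    · subst hj
      rw [cS_iS, Function.update_self, Function.update_self]
    · rw [cS_iS_ne hj, Function.update_of_ne hj, Function.update_of_ne hj]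
      rfl
  · show w.2 l + ((0 : ℤ) : ℝ) = w.2 l
    rw [Int.cast_zero, add_zero]

theorem ρ_iN (δ : G) (z : Fin r → ℍ) (y : W) (t : Fin k → ℝ) :
    ρ Γ G (iN Γ G k δ) (z, y, t) = (z, δ.1 y, t) := by
  rw [ρ_apply]
  refine Prod.ext (funext fun j => rfl) (Prod.ext ?_ (funext fun l => ?_))
  · show (cN Γ G (iN Γ G k δ)).1 y = δ.1 y
    rw [cN_iN]
  · show t l + ((0 : ℤ) : ℝ) = t l
    rw [Int.cast_zero, add_zero]

theorem comp_homotopic [TopologicalSpace W] [Nonempty W] (hΓ : ∀ i, IsSurfaceGroup (Γ i))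
    (hcl : Cl G) (hfac : ∀ i, ¬ Fac (bar (Γ i)) G) {F F' : X W r k → X W r k}
    (hF : IsNormalizer Γ G F F') (hc : Continuous F) (x : X W r k) :
    ∃ (A : Matrix (Fin k) (Fin k) ℤ) (τ : (Fin r → ℍ) → W → (Fin k → ℝ)), IsTwist Γ G τ ∧
      Homotopic Γ G (model (compS F x) (compN F x) A τ) F^[r.factorial] := by
  obtain ⟨φ, hφ⟩ := exists_auto hF
  have hper : Per (φ ^ r.factorial : MulAut (Pi1 Γ G k)) (1 : Equiv.Perm (Option (Fin r))) := by
    have h := per_pow (G := Gp Γ G) (fun i => ct_bar (hΓ i)) (fun i => nc_bar (hΓ i)) hcl hfac φ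
    rwa [Fintype.card_fin] at h
  have hn := hφ r.factorial
  obtain ⟨ψ, hψ⟩ : ∃ ψ : MulAut (Pi1 Γ G k), ψ = φ ^ r.factorial := ⟨_, rfl⟩
  rw [← hψ] at hper hn
  -- the components
  have hS : ∀ i (a : bar (Γ i)) z, compS F x i (a.1 z) =
      (cS Γ G (ψ (iS Γ G k i a)) i).1 (compS F x i z) := by
    intro i a z
    have h1 := congrFun (hn (iS Γ G k i a)) (Function.update x.1 i z, x.2)
    rw [Function.comp_apply, Function.comp_apply, ρ_iS] at h1
    exact congrFun (congrArg Prod.fst h1) i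
  have hN : ∀ (δ : G) y, compN F x (δ.1 y) =
      (cN Γ G (ψ (iN Γ G k δ))).1 (compN F x y) := by
    intro δ y
    have h1 := congrFun (hn (iN Γ G k δ)) (x.1, y, x.2.2)
    rw [Function.comp_apply, Function.comp_apply, ρ_iN] at h1
    exact congrArg (fun q => q.2.1) h1
  -- the twist
  obtain ⟨τ, hτ⟩ : ∃ τ : (Fin r → ℍ) → W → (Fin k → ℝ),
      τ = fun z y => (F^[r.factorial] (z, y, 0)).2.2 := ⟨_, rfl⟩
  have hτe : ∀ (u : Pi1 Γ G k), cT Γ G u = 0 → ∀ z y,
      τ (fun i => (cS Γ G u i).1 (z i)) ((cN Γ G u).1 y) =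
        fun j => τ z y j + cT Γ G (ψ u) j := by
    intro u hu z y
    have h1 := congrFun (hn u) (z, y, 0)
    rw [Function.comp_apply, Function.comp_apply, ρ_apply, ρ_apply] at h1
    have h2 : (fun j => (0 : Fin k → ℝ) j + ((cT Γ G u j : ℤ) : ℝ)) = 0 := by
      rw [hu]
      funext j
      simp
    rw [h2] at h1
    rw [hτ]
    exact congrArg (fun q => q.2.2) h1
  -- the matrix
  obtain ⟨L, hL⟩ : ∃ L : (Fin k → ℤ) →ₗ[ℤ] (Fin k → ℤ),
      ∀ v, L v = cT Γ G (ψ (incZ (Multiplicative.ofAdd v))) := by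
    refine ⟨AddMonoidHom.toIntLinearMap
      { toFun := fun v => cT Γ G (ψ (incZ (Multiplicative.ofAdd v)))
        map_zero' := ?_
        map_add' := fun v w => ?_ }, fun v => rfl⟩
    · have h1 : (incZ (Multiplicative.ofAdd (0 : Fin k → ℤ)) : Pi1 Γ G k) = 1 := rfl
      rw [h1, map_one]
      rfl
    · have h1 : (incZ (Multiplicative.ofAdd (v + w)) : Pi1 Γ G k) =
          incZ (Multiplicative.ofAdd v) * incZ (Multiplicative.ofAdd w) := by
        refine Prod.ext ?_ rfl
        exact (one_mul _).symm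
      rw [h1, map_mul, cT_mul]
  refine ⟨LinearMap.toMatrix' L, τ, ⟨?_, ?_⟩, ?_⟩
  · rw [hτ]
    refine continuous_snd.comp (continuous_snd.comp ((hc.iterate _).comp ?_))
    exact continuous_fst.prodMk (continuous_snd.prodMk continuous_const)
  · intro γ hγ δ hδ
    obtain ⟨u, hu⟩ := exists_ρ (k := k) (Γ := Γ) (G := G) (g := fun p => (fun i => act (γ i) (p.1 i),
      δ p.2.1, fun j => p.2.2 j + ((0 : Fin k → ℤ) j : ℤ))) ⟨γ, δ, 0, hγ, hδ, fun p => rfl⟩
    obtain ⟨y₀⟩ := ‹Nonempty W›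
    have h1 : ∀ (z : Fin r → ℍ) (y : W),
        (fun i => (cS Γ G u i).1 (z i)) = (fun i => act (γ i) (z i)) ∧
        (cN Γ G u).1 y = δ y := by
      intro z y
      have h2 := congrFun hu (z, y, 0)
      exact ⟨(congrArg Prod.fst h2).symm, (congrArg (fun q => q.2.1) h2).symm⟩
    have h3 : cT Γ G u = 0 := by
      funext j
      have h2 := congrFun (congrArg (fun q => q.2.2)
        (congrFun hu (fun _ => UpperHalfPlane.I, y₀, 0))) j
      change (0 : ℝ) + ((0 : ℤ) : ℝ) = 0 + cT Γ G u j at h2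
      rw [zero_add, zero_add] at h2
      exact_mod_cast h2.symm
    refine ⟨cT Γ G (ψ u), fun z y => ?_⟩
    rw [← (h1 z y).1, ← (h1 z y).2]
    exact hτe u h3 z y
  · intro g hg
    obtain ⟨u, rfl⟩ := exists_ρ hg
    refine ⟨ρ Γ G (ψ u), isDeck_ρ _, funext fun p => ?_, hn u⟩
    rw [Function.comp_apply, Function.comp_apply, ρ_apply, ρ_apply]
    refine Prod.ext (funext fun i => ?_) (Prod.ext ?_ (funext fun j => ?_))
    · show compS F x i ((cS Γ G u i).1 (p.1 i)) = (cS Γ G (ψ u) i).1 (compS F x i (p.1 i))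
      rw [hS]
      congr 1
      exact congrArg Subtype.val (hper.apply u (some i)).symm
    · show compN F x ((cN Γ G u).1 p.2.1) = (cN Γ G (ψ u)).1 (compN F x p.2.1)
      rw [hN]
      congr 1
      exact congrArg Subtype.val (hper.apply u none).symm
    · -- split off the translation
      obtain ⟨u₀, hu₀⟩ : ∃ u₀ : Pi1 Γ G k, u₀ = (u.1, 1) := ⟨_, rfl⟩
      have h1 : u = u₀ * incZ u.2 := by
        rw [hu₀]
        exact Prod.ext (mul_one _).symm (one_mul _).symm
      have h2 : cT Γ G (ψ u) = cT Γ G (ψ u₀) + L (cT Γ G u) := by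
        rw [hL]
        conv_lhs => rw [h1]
        rw [map_mul, cT_mul]
        rfl
      have h3 := congrFun (hτe u₀ (by rw [hu₀]; rfl) p.1 p.2.1) j
      have h4 : τ (fun i => (cS Γ G u i).1 (p.1 i)) ((cN Γ G u).1 p.2.1) j =
          τ p.1 p.2.1 j + cT Γ G (ψ u₀) j := by
        rw [hu₀] at h3 ⊢
        exact h3
      show ((LinearMap.toMatrix' L).map (Int.cast : ℤ → ℝ)).mulVec
          (fun j => p.2.2 j + cT Γ G u j) j +
          τ (fun i => (cS Γ G u i).1 (p.1 i)) ((cN Γ G u).1 p.2.1) j =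
        ((LinearMap.toMatrix' L).map (Int.cast : ℤ → ℝ)).mulVec p.2.2 j + τ p.1 p.2.1 j +
          cT Γ G (ψ u) j
      have h5 : ((LinearMap.toMatrix' L).map (Int.cast : ℤ → ℝ)).mulVec
          (fun j => p.2.2 j + cT Γ G u j) j =
          ((LinearMap.toMatrix' L).map (Int.cast : ℤ → ℝ)).mulVec p.2.2 j +
            ((L (cT Γ G u) j : ℤ) : ℝ) := by
        have h6 : L (cT Γ G u) = (LinearMap.toMatrix' L).mulVec (cT Γ G u) :=
          (LinearMap.toMatrix'_mulVec L _).symm
        rw [h6]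
        simp only [Matrix.mulVec, dotProduct, Matrix.map_apply]
        push_cast
        rw [← Finset.sum_add_distrib]
        refine Finset.sum_congr rfl fun l _ => ?_
        ring
      rw [h4, h5, h2, Pi.add_apply]
      push_cast
      ring

end Main

end Pool.Agent.ANO5.Aut
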