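import Mathlib

/-!
# Automorphisms and subgroups of finite index

A finitely generated group has finitely many subgroups of a given finite index, so every
automorphism has a power which preserves a given subgroup of finite index.
-/

set_option autoImplicit false

open Set

namespace Pool.Agent.ANO5.Aut

theorem finite_hom {L K : Type*} [Group L] [Group K] [Finite K] (hL : Group.FG L) :
    Finite (L →* K) := by
  obtain ⟨T, hT⟩ := hL.out
  have hinj : Function.Injective fun (f : L →* K) (t : T) => f t := by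
    intro f g h
    refine MonoidHom.eq_of_eqOn_dense hT fun t ht => ?_
    exact congrFun h ⟨t, ht⟩
  exact Finite.of_injective _ hinj

theorem finite_index {L : Type*} [Group L] (hL : Group.FG L) {N : ℕ} (hN : N ≠ 0) :
    {H : Subgroup L | H.index = N}.Finite := by
  have := finite_hom (K := Equiv.Perm (Fin N)) hL
  refine (Set.finite_range fun q : (L →* Equiv.Perm (Fin N)) × Fin N =>
    (MulAction.stabilizer (Equiv.Perm (Fin N)) q.2).comap q.1).subset ?_
  intro H hH
  have hfin : Finite (L ⧸ H) := Nat.finite_of_card_ne_zero (by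
    rw [← Subgroup.index_eq_card]
    exact fun h => hN (hH.symm.trans h))
  have hcard : Nat.card (L ⧸ H) = N := by
    rw [← Subgroup.index_eq_card]
    exact hH
  let e : (L ⧸ H) ≃ Fin N := (Finite.equivFin _).trans (finCongr hcard)
  let ψ : Equiv.Perm (L ⧸ H) →* Equiv.Perm (Fin N) := e.permCongrHom.toMonoidHom
  refine ⟨(ψ.comp (MulAction.toPermHom L (L ⧸ H)), e ((1 : L) : L ⧸ H)), ?_⟩
  ext g
  rw [Subgroup.mem_comap, MulAction.mem_stabilizer_iff]
  have h1 : (ψ.comp (MulAction.toPermHom L (L ⧸ H))) g • e ((1 : L) : L ⧸ H) =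
      e ((g : L) : L ⧸ H) := by
    show e (g • e.symm (e ((1 : L) : L ⧸ H))) = _
    rw [e.symm_apply_apply]
    show e ((g * 1 : L) : L ⧸ H) = _
    rw [mul_one]
  show (ψ.comp (MulAction.toPermHom L (L ⧸ H))) g • e ((1 : L) : L ⧸ H) = _ ↔ _
  rw [h1, e.injective.eq_iff, QuotientGroup.eq, mul_one, inv_mem_iff]

theorem exists_pow_comap {L : Type*} [Group L] (hL : Group.FG L) {D : Subgroup L}
    (hD : D.index ≠ 0) (φ : MulAut L) :
    ∃ m : ℕ, 0 < m ∧ ∀ g, (φ ^ m : MulAut L) g ∈ D ↔ g ∈ D := by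
  let s : ℕ → Subgroup L := fun n => D.comap (φ ^ n : MulAut L).toMonoidHom
  have hs : ∀ n, s n ∈ {H : Subgroup L | H.index = D.index} := fun n =>
    Subgroup.index_comap_of_surjective _ (φ ^ n : MulAut L).surjective
  have hninj : ¬ Function.Injective s := by
    intro hinj
    exact (Set.infinite_range_of_injective hinj)
      ((finite_index hL hD).subset (by rintro _ ⟨n, rfl⟩; exact hs n))
  rw [Function.not_injective_iff] at hninj
  obtain ⟨a, b, hab, hne⟩ := hninj
  have key : ∀ a b : ℕ, a < b → s a = s b →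
      ∃ m : ℕ, 0 < m ∧ ∀ g, (φ ^ m : MulAut L) g ∈ D ↔ g ∈ D := by
    intro a b hlt h
    refine ⟨b - a, Nat.sub_pos_of_lt hlt, fun g => ?_⟩
    obtain ⟨g', rfl⟩ := (φ ^ a : MulAut L).surjective g
    have h1 : (g' ∈ s a ↔ g' ∈ s b) := by rw [h]
    have h2 : (φ ^ (b - a) : MulAut L) ((φ ^ a : MulAut L) g') = (φ ^ b : MulAut L) g' := by
      rw [← MulAut.mul_apply, ← pow_add, Nat.sub_add_cancel hlt.le]
    rw [h2]
    exact h1.symm
  rcases lt_or_gt_of_ne hne with h | h
  · exact key a b h hab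
  · exact key b a h hab.symm

/-- If the permutation `F` normalises `Λ` then some power of `F` normalises a given subgroup
`Δ` of finite index in `Λ`. -/
theorem exists_pow_normalizes {P : Type*} [Group P] {Λ Δ : Subgroup P} (hle : Δ ≤ Λ)
    (hfg : Δ.FG) (hfin : ∃ S : Set P, S.Finite ∧ ∀ g ∈ Λ, ∃ s ∈ S, s * g ∈ Δ) {F : P}
    (h1 : ∀ g ∈ Λ, F * g * F⁻¹ ∈ Λ) (h2 : ∀ g ∈ Λ, F⁻¹ * g * F ∈ Λ) :
    ∃ m : ℕ, 0 < m ∧ ∀ g, F ^ m * g * (F ^ m)⁻¹ ∈ Δ ↔ g ∈ Δ := by
  obtain ⟨S, hS, hcov⟩ := hfin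
  -- `Λ` is finitely generated
  have hΛ : Λ.FG := by
    obtain ⟨T, hT⟩ := hfg
    rw [Subgroup.fg_iff]
    refine ⟨T ∪ (S ∩ Λ), ?_, T.finite_toSet.union (hS.subset inter_subset_left)⟩
    refine le_antisymm ?_ fun g hg => ?_
    · rw [Subgroup.closure_le]
      rintro x (hx | hx)
      · exact hle (hT ▸ Subgroup.subset_closure hx)
      · exact hx.2
    · obtain ⟨s, hs, hsg⟩ := hcov g hg
      have hsΛ : s ∈ Λ := by
        have := Λ.mul_mem (hle hsg) (Λ.inv_mem hg)
        rwa [mul_inv_cancel_right] at this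
      have h3 : s ∈ Subgroup.closure ((T : Set P) ∪ (S ∩ Λ)) :=
        Subgroup.subset_closure (Or.inr ⟨hs, hsΛ⟩)
      have h4 : s * g ∈ Subgroup.closure ((T : Set P) ∪ (S ∩ Λ)) := by
        have h5 : Subgroup.closure (T : Set P) ≤ Subgroup.closure ((T : Set P) ∪ (S ∩ Λ)) :=
          Subgroup.closure_mono subset_union_left
        exact h5 (hT.symm ▸ hsg)
      have h6 := Subgroup.mul_mem _ (Subgroup.inv_mem _ h3) h4
      rwa [inv_mul_cancel_left] at h6
  have hL : Group.FG Λ := (Group.fg_iff_subgroup_fg Λ).2 hΛ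
  -- the index
  have hD : (Δ.subgroupOf Λ).index ≠ 0 := by
    have : Finite (Λ ⧸ Δ.subgroupOf Λ) := by
      have hS' : Finite S := hS
      choose f hfS hf using hcov
      let q : S → Λ ⧸ Δ.subgroupOf Λ := fun s => by
        classical
        exact if h : (s : P)⁻¹ ∈ Λ then ((⟨(s : P)⁻¹, h⟩ : Λ) : Λ ⧸ Δ.subgroupOf Λ) else
          ((1 : Λ) : Λ ⧸ Δ.subgroupOf Λ)
      refine Finite.of_surjective q fun y => ?_
      induction y using QuotientGroup.induction_on with
      | H g =>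
        have hsΛ : (f g g.2)⁻¹ ∈ Λ := by
          have := Λ.mul_mem (hle (hf g g.2)) (Λ.inv_mem g.2)
          rw [mul_inv_cancel_right] at this
          exact Λ.inv_mem this
        refine ⟨⟨f g g.2, hfS g g.2⟩, ?_⟩
        have h3 : q ⟨f g g.2, hfS g g.2⟩ =
            ((⟨(f g g.2)⁻¹, hsΛ⟩ : Λ) : Λ ⧸ Δ.subgroupOf Λ) := dif_pos hsΛ
        rw [h3, QuotientGroup.eq, Subgroup.mem_subgroupOf]
        show ((f g g.2)⁻¹)⁻¹ * (g : P) ∈ Δ
        rw [inv_inv]
        exact hf g g.2
    exact Subgroup.index_ne_zero_of_finite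
  -- the automorphism
  let φ : MulAut Λ :=
    { toFun := fun g => ⟨F * g * F⁻¹, h1 g g.2⟩
      invFun := fun g => ⟨F⁻¹ * g * F, h2 g g.2⟩
      left_inv := fun g => Subtype.ext (by
        show F⁻¹ * (F * (g : P) * F⁻¹) * F = g
        group)
      right_inv := fun g => Subtype.ext (by
        show F * (F⁻¹ * (g : P) * F) * F⁻¹ = g
        group)
      map_mul' := fun g h => Subtype.ext (by
        show F * ((g : P) * h) * F⁻¹ = (F * g * F⁻¹) * (F * h * F⁻¹)
        group) }
  have hφ : ∀ (m : ℕ) (g : Λ), (((φ ^ m : MulAut Λ) g : Λ) : P) = F ^ m * g * (F ^ m)⁻¹ := by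
    intro m
    induction m with
    | zero => intro g; simp
    | succ m ih =>
      intro g
      rw [pow_succ', MulAut.mul_apply]
      show F * (((φ ^ m : MulAut Λ) g : Λ) : P) * F⁻¹ = _
      rw [ih, pow_succ']
      group
  obtain ⟨m, hm, h3⟩ := exists_pow_comap hL hD φ
  refine ⟨m, hm, fun g => ?_⟩
  have key : ∀ g ∈ Λ, (F ^ m * g * (F ^ m)⁻¹ ∈ Δ ↔ g ∈ Δ) := fun g hg => by
    have h4 := h3 ⟨g, hg⟩
    rw [Subgroup.mem_subgroupOf, Subgroup.mem_subgroupOf, hφ] at h4
    exact h4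
  constructor
  · intro hg
    have h5 : g ∈ Λ := by
      have h6 : ∀ n : ℕ, ∀ g ∈ Λ, (F ^ n)⁻¹ * g * F ^ n ∈ Λ := by
        intro n
        induction n with
        | zero => intro g hg; simpa using hg
        | succ n ih =>
          intro g hg
          have h7 := ih _ (h2 g hg)
          rw [pow_succ', mul_inv_rev]
          have e : (F ^ n)⁻¹ * F⁻¹ * g * (F * F ^ n) = (F ^ n)⁻¹ * (F⁻¹ * g * F) * F ^ n := by
            group
          rw [e]
          exact h7
      have h8 := h6 m _ (hle hg)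
      have e : (F ^ m)⁻¹ * (F ^ m * g * (F ^ m)⁻¹) * F ^ m = g := by group
      rwa [e] at h8
    exact (key g h5).1 hg
  · intro hg
    exact (key g (hle hg)).2 hg

end Pool.Agent.ANO5.Aut
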