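import Pool.Agent.ANO5.Aut.Main
import Pool.Agent.ANO5.Aut.FinIdx
import Pool.Agent.ANO5.Stmt.Cover
import Pool.Agent.ANO5.Lin.Gen

/-!
# Anosov diffeomorphisms of manifolds which are finitely covered by a product

The deck group of the product is finitely generated, so some power of a diffeomorphism of `M` lifts
to the cover.
-/

set_option autoImplicit false

open scoped UpperHalfPlane MatrixGroups Nat
open Set

namespace Pool.Agent.ANO5.Aut

open Pool.Agent.ANO2.Stmt (act IsSurfaceGroup)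
open Pool.Agent.ANO2 (ClosedSurface)
open Pool.Agent.ANO5.Stmt (X IsDeck IsHadamard IsFinitelyCovered IsCoverMap)

variable {W : Type} [MetricSpace W] {d r k : ℕ} {crd : W ≃ₜ (Fin d → ℝ)}
  {G : Subgroup (Equiv.Perm W)} {nrm : W → (Fin d → ℝ) → ℝ} {geo : ℝ → W → W → W}

/-- The deck group of the product. -/
noncomputable def deckGroup (Γ : Fin r → Subgroup SL(2, ℝ)) (G : Subgroup (Equiv.Perm W))
    (k : ℕ) : Subgroup (Equiv.Perm (X W r k)) := (ρ Γ G : Pi1 Γ G k →* _).range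

omit [MetricSpace W] in
theorem mem_deckGroup {Γ : Fin r → Subgroup SL(2, ℝ)} {g : Equiv.Perm (X W r k)} :
    g ∈ deckGroup Γ G k ↔ IsDeck Γ G g := by
  constructor
  · rintro ⟨u, rfl⟩
    exact isDeck_ρ u
  · intro h
    obtain ⟨u, hu⟩ := exists_ρ h
    exact ⟨u, Equiv.coe_fn_injective hu.symm⟩

/-- The deck group of the product is finitely generated. -/
theorem fg_deckGroup (hN : IsHadamard crd G nrm geo) {Γ : Fin r → Subgroup SL(2, ℝ)}
    (hΓ : ∀ i, IsSurfaceGroup (Γ i)) : (deckGroup Γ G k).FG := by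
  let : TFib := Stmt.tfib hN k
  let S : Fin r → ClosedSurface := fun i => ⟨Γ i, (hΓ i).free, (hΓ i).proper, (hΓ i).cocompact⟩
  have hdeck := Stmt.isDeck_iff (k := k) hN S
  have hm : ∀ g : deckGroup Γ G k, A2.IsDeck S (⇑g.1 : A1.X r → A1.X r) := fun g =>
    (hdeck _).1 (mem_deckGroup.1 g.2)
  obtain ⟨K, hK, hcov⟩ := A2.Dyn.deck_cocompact S
  have hne : Nonempty W := ⟨crd.symm 0⟩
  have hcon : PreconnectedSpace (A1.X r) := by
    have : ConnectedSpace Fib.W := Fib.connected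
    infer_instance
  have hne' : Nonempty (A1.X r) := ⟨(fun _ => UpperHalfPlane.I, Fib.crd.symm 0)⟩
  obtain ⟨T, hT, hTc⟩ := Lin.gen (P := A1.X r) (Δ := deckGroup Γ G k)
    (fun g x y => (A2.Dyn.IsDeck.isometry (hm g)).dist_eq x y) hK
    (fun x => by
      obtain ⟨g, hg, hgx⟩ := hcov x
      obtain ⟨u, hu⟩ := exists_ρ ((hdeck g).2 hg)
      refine ⟨⟨ρ Γ G u, u, rfl⟩, ?_⟩
      show ρ Γ G u x ∈ K
      rw [← hu]
      exact hgx)
    (fun K hK => by
      have h1 := A2.Dyn.deck_finite (S := S) hK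
      refine (h1.preimage (f := fun g : deckGroup Γ G k => (⇑g.1 : A1.X r → A1.X r))
        ?_).subset ?_
      · intro g _ g' _ h
        exact Subtype.ext (Equiv.coe_fn_injective h)
      · rintro g ⟨x, hx, hgx⟩
        exact ⟨hm g, x, hx, hgx⟩)
  rw [← Group.fg_iff_subgroup_fg, Group.fg_iff]
  exact ⟨T, hTc, hT⟩

/-- Some power of `F` lifts to the finite cover. -/
theorem exists_power (hN : IsHadamard crd G nrm geo) {Γ : Fin r → Subgroup SL(2, ℝ)}
    (hΓ : ∀ i, IsSurfaceGroup (Γ i)) {Λ : Subgroup (Equiv.Perm (X W r k))}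
    (hΛ : IsFinitelyCovered crd Γ G Λ) {F F' : X W r k → X W r k}
    (hF : Stmt.IsLift crd Λ F F') : ∃ m : ℕ, 0 < m ∧ IsCoverMap Γ G F^[m] := by
  let Fp : Equiv.Perm (X W r k) := ⟨F, F', hF.left_inv, hF.right_inv⟩
  have hiter : ∀ n : ℕ, ⇑(Fp ^ n) = F^[n] := fun n => (Equiv.Perm.iterate_eq_pow Fp n).symm
  obtain ⟨K, hK, hcov⟩ := hΛ.finite
  obtain ⟨m, hm, h⟩ := exists_pow_normalizes (Λ := Λ) (Δ := deckGroup Γ G k)
    (fun g hg => hΛ.deck g (mem_deckGroup.1 hg)) (fg_deckGroup hN hΓ)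
    ⟨K, hK, fun g hg => by
      obtain ⟨s, hs, h⟩ := hcov g hg
      exact ⟨s, hs, mem_deckGroup.2 h⟩⟩ (F := Fp)
    (fun g hg => by
      obtain ⟨g', hg', e⟩ := hF.normalizes g hg
      have e2 : Fp * g * Fp⁻¹ = g' := by
        rw [mul_inv_eq_iff_eq_mul]
        exact Equiv.ext fun x => congrFun e x
      rw [e2]
      exact hg')
    (fun g' hg' => by
      obtain ⟨g, hg, e⟩ := hF.normalizes' g' hg'
      have e2 : Fp⁻¹ * g' * Fp = g := by
        rw [mul_assoc, inv_mul_eq_iff_eq_mul]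
        exact Equiv.ext fun x => (congrFun e x).symm
      rw [e2]
      exact hg)
  refine ⟨m, hm, fun g hg => ?_, fun g' hg' => ?_⟩
  · obtain ⟨u, rfl⟩ := exists_ρ hg
    have h1 := (h (ρ Γ G u)).2 ⟨u, rfl⟩
    refine ⟨_, mem_deckGroup.1 h1, ?_⟩
    rw [← hiter]
    funext x
    show (Fp ^ m) (ρ Γ G u x) = (Fp ^ m) (ρ Γ G u ((Fp ^ m).symm ((Fp ^ m) x)))
    rw [Equiv.symm_apply_apply]
  · obtain ⟨u, rfl⟩ := exists_ρ hg'
    have h1 := (h ((Fp ^ m)⁻¹ * ρ Γ G u * (Fp ^ m))).1 (by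
      have e : Fp ^ m * ((Fp ^ m)⁻¹ * ρ Γ G u * Fp ^ m) * (Fp ^ m)⁻¹ = ρ Γ G u := by group
      rw [e]
      exact ⟨u, rfl⟩)
    refine ⟨_, mem_deckGroup.1 h1, ?_⟩
    rw [← hiter]
    funext x
    show (Fp ^ m) ((Fp ^ m).symm (ρ Γ G u ((Fp ^ m) x))) = _
    rw [Equiv.apply_symm_apply]
    rfl

/-- The chain rule. -/
theorem isC1_comp (hN : IsHadamard crd G nrm geo) {F H : X W r k → X W r k}
    (hF : Stmt.IsC1 crd F) (hH : Stmt.IsC1 crd H) : Stmt.IsC1 crd (F ∘ H) := by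
  let : TFib := Stmt.tfib hN k
  exact A1.Idx.contDiffOn_comp (r := r) (G := F) (H := H) hF hH

theorem dmap_comp (hN : IsHadamard crd G nrm geo) {F H : X W r k → X W r k}
    (hF : Stmt.IsC1 crd F) (hH : Stmt.IsC1 crd H) (p : X W r k) (v : Stmt.E d r k) :
    Stmt.dmap crd (F ∘ H) p v = Stmt.dmap crd F (H p) (Stmt.dmap crd H p v) := by
  let : TFib := Stmt.tfib hN k
  have h := A1.Idx.tmap_comp (r := r) (G := F) (H := H) hF hH p
  exact congrArg (fun L : Stmt.E d r k →L[ℝ] Stmt.E d r k => L v) h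

theorem isC1_id (hN : IsHadamard crd G nrm geo) : Stmt.IsC1 crd (id : X W r k → X W r k) := by
  let : TFib := Stmt.tfib hN k
  exact A1.Idx.contDiffOn_id (r := r)

theorem dmap_id (hN : IsHadamard crd G nrm geo) (p : X W r k) (v : Stmt.E d r k) :
    Stmt.dmap crd id p v = v := by
  let : TFib := Stmt.tfib hN k
  have h := A1.Idx.tmap_id (r := r) p
  exact congrArg (fun L : Stmt.E d r k →L[ℝ] Stmt.E d r k => L v) h

theorem isC1_iterate (hN : IsHadamard crd G nrm geo) {F : X W r k → X W r k}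
    (hF : Stmt.IsC1 crd F) (n : ℕ) : Stmt.IsC1 crd F^[n] := by
  induction n with
  | zero => exact isC1_id hN
  | succ n ih =>
    rw [Function.iterate_succ']
    exact isC1_comp hN hF ih

theorem inv_iterate (hN : IsHadamard crd G nrm geo) {F : X W r k → X W r k}
    (hF : Stmt.IsC1 crd F) {P : X W r k → Stmt.E d r k → Stmt.E d r k}
    (hP : ∀ p v, P (F p) (Stmt.dmap crd F p v) = Stmt.dmap crd F p (P p v)) (n : ℕ) (p : X W r k)
    (v : Stmt.E d r k) :
    P (F^[n] p) (Stmt.dmap crd F^[n] p v) = Stmt.dmap crd F^[n] p (P p v) := by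
  induction n with
  | zero =>
    show P p (Stmt.dmap crd id p v) = Stmt.dmap crd id p (P p v)
    rw [dmap_id hN, dmap_id hN]
  | succ n ih =>
    rw [Function.iterate_succ', dmap_comp hN hF (isC1_iterate hN hF n),
      dmap_comp hN hF (isC1_iterate hN hF n), Function.comp_apply, hP, ih]

/-- A power of `F` which induces a map of the finite cover is an Anosov lift for the cover. -/
theorem isAnosovLift_pow (hN : IsHadamard crd G nrm geo) {Γ : Fin r → Subgroup SL(2, ℝ)}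
    {Λ : Subgroup (Equiv.Perm (X W r k))} (hΛ : IsFinitelyCovered crd Γ G Λ)
    {F : X W r k → X W r k} (hF : Stmt.IsAnosov crd Λ nrm F) {m : ℕ} (hm : 0 < m)
    (h : IsCoverMap Γ G F^[m]) : Stmt.IsAnosovLift crd Γ G nrm F^[m] := by
  obtain ⟨F', P, hL, hP, C, μ, hC, hμ0, hμ1, hest⟩ := hF
  refine ⟨F'^[m], P, ⟨?_, ?_, isC1_iterate hN hL.smooth m, isC1_iterate hN hL.smooth_inv m,
    h.normalizes, h.normalizes'⟩, ⟨hP.cont, hP.linear, hP.proj, fun g hg p v => ?_,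
    fun p v => inv_iterate hN hL.smooth hP.inv m p v⟩, C, μ ^ m, hC, pow_pos hμ0 m,
    pow_lt_one₀ hμ0.le hμ1 hm.ne', fun n p v => ?_⟩
  · exact Function.LeftInverse.iterate hL.left_inv m
  · exact Function.LeftInverse.iterate hL.right_inv m
  · obtain ⟨u, rfl⟩ := exists_ρ hg
    exact hP.deck _ (hΛ.deck _ (isDeck_ρ u)) p v
  · rw [← Function.iterate_mul, ← Function.iterate_mul, ← pow_mul]
    exact hest (m * n) p v

/-- The theorem for manifolds which are finitely covered by `S₁ × ⋯ × S_r × N × T^k`. -/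
theorem final_cover (hmain : MainStatement) (hN : IsHadamard crd G nrm geo)
    (hrd : 0 < r ∨ 0 < d) {Γ : Fin r → Subgroup SL(2, ℝ)} (hΓ : ∀ i, IsSurfaceGroup (Γ i))
    (hc : Subgroup.center G = ⊥)
    (hf : ∀ (i : Fin r) (K : Type) [Group K],
      IsEmpty (G ≃* ((Γ i).map (MulAction.toPermHom SL(2, ℝ) ℍ)) × K))
    {Λ : Subgroup (Equiv.Perm (X W r k))} (hΛ : IsFinitelyCovered crd Γ G Λ)
    {F : X W r k → X W r k} (hF : Stmt.IsAnosov crd Λ nrm F) :
    (∃ m : ℕ, 0 < m ∧ IsCoverMap Γ G F^[m]) ∧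
      ∀ m : ℕ, 0 < m → IsCoverMap Γ G F^[m] → ∀ x : X W r k,
        ¬ ((∀ i, Stmt.HasNormalForm (Γ i) (Stmt.compS (F^[m])^[r !] x i)) ∧
          Stmt.IsPeriodic G (Stmt.compN (F^[m])^[r !] x)) := by
  refine ⟨?_, fun m hm h x => ?_⟩
  · obtain ⟨F', P, hL, -⟩ := hF
    exact exists_power hN hΓ hΛ hL
  · exact final hmain hN hrd hΓ hc hf (isAnosovLift_pow hN hΛ hF hm h) x

/-- The same with one power `F^m`. -/
theorem final_exists (hmain : MainStatement) (hN : IsHadamard crd G nrm geo)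
    (hrd : 0 < r ∨ 0 < d) {Γ : Fin r → Subgroup SL(2, ℝ)} (hΓ : ∀ i, IsSurfaceGroup (Γ i))
    (hc : Subgroup.center G = ⊥)
    (hf : ∀ (i : Fin r) (K : Type) [Group K],
      IsEmpty (G ≃* ((Γ i).map (MulAction.toPermHom SL(2, ℝ) ℍ)) × K))
    {Λ : Subgroup (Equiv.Perm (X W r k))} (hΛ : IsFinitelyCovered crd Γ G Λ)
    {F : X W r k → X W r k} (hF : Stmt.IsAnosov crd Λ nrm F) :
    ∃ m : ℕ, 0 < m ∧ IsCoverMap Γ G F^[m] ∧ ∀ x : X W r k,
      ¬ ((∀ i, Stmt.HasNormalForm (Γ i) (Stmt.compS (F^[m])^[r !] x i)) ∧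
        Stmt.IsPeriodic G (Stmt.compN (F^[m])^[r !] x)) := by
  obtain ⟨⟨m, hm, h⟩, h2⟩ := final_cover hmain hN hrd hΓ hc hf hΛ hF
  exact ⟨m, hm, h, h2 m hm h⟩

end Pool.Agent.ANO5.Aut
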