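import Pool.Agent.ANO5.Aut.Grp
import Pool.Agent.ANO2.Stmt.Defs

/-!
# Surface groups have commutative centralizers and are not commutative
-/

set_option autoImplicit false
set_option linter.unusedSectionVars false

open scoped UpperHalfPlane MatrixGroups
open Set

namespace Pool.Agent.ANO5.Aut

open Pool.Agent.ANO2.Stmt (act IsSurfaceGroup)

theorem den_ne (γ : SL(2, ℝ)) (z : ℍ) : ((γ 1 0 : ℝ) : ℂ) * z + ((γ 1 1 : ℝ) : ℂ) ≠ 0 :=
  UpperHalfPlane.denom_ne_zero (γ : GL (Fin 2) ℝ) z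

theorem coe_act (γ : SL(2, ℝ)) (z : ℍ) : ((act γ z : ℍ) : ℂ) =
    (((γ 0 0 : ℝ) : ℂ) * z + ((γ 0 1 : ℝ) : ℂ)) / (((γ 1 0 : ℝ) : ℂ) * z + ((γ 1 1 : ℝ) : ℂ)) := by
  have := UpperHalfPlane.coe_specialLinearGroup_apply γ z
  show ((γ • z : ℍ) : ℂ) = _
  simpa using this

theorem det_one (γ : SL(2, ℝ)) : γ 0 0 * γ 1 1 - γ 0 1 * γ 1 0 = 1 := by
  have := γ.det_coe
  rwa [Matrix.det_fin_two] at this

theorem im_act (γ : SL(2, ℝ)) (z : ℍ) : (act γ z : ℍ).im =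
    z.im / ‖((γ 1 0 : ℝ) : ℂ) * z + ((γ 1 1 : ℝ) : ℂ)‖ ^ 2 := by
  have h6 : (γ • z : ℍ).im = |((γ : GL (Fin 2) ℝ)).det.val| * z.im /
      Complex.normSq (UpperHalfPlane.denom (γ : GL (Fin 2) ℝ) z) :=
    UpperHalfPlane.im_smul_eq_div_normSq (γ : GL (Fin 2) ℝ) z
  have h7 : ((γ : GL (Fin 2) ℝ)).det.val = 1 := by simp
  show (γ • z : ℍ).im = _
  rw [h6, h7, abs_one, one_mul, Complex.normSq_eq_norm_sq]
  rfl

/-- the polynomial whose zeros are the fixed points -/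
theorem act_eq_iff (γ : SL(2, ℝ)) (z : ℍ) : act γ z = z ↔
    ((γ 1 0 : ℝ) : ℂ) * z ^ 2 + (((γ 1 1 : ℝ) : ℂ) - ((γ 0 0 : ℝ) : ℂ)) * z -
      ((γ 0 1 : ℝ) : ℂ) = 0 := by
  rw [← UpperHalfPlane.coe_inj, coe_act, div_eq_iff (den_ne γ z)]
  constructor
  · intro h
    linear_combination -h
  · intro h
    linear_combination -h

theorem act_scalar {γ : SL(2, ℝ)} (h1 : γ 1 0 = 0) (h2 : γ 0 1 = 0) (h3 : γ 0 0 = γ 1 1) (z : ℍ) :
    act γ z = z := by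
  rw [act_eq_iff, h1, h2, h3]
  simp

theorem scalar_of_act {γ : SL(2, ℝ)} (h : ∀ z, act γ z = z) :
    γ 1 0 = 0 ∧ γ 0 1 = 0 ∧ γ 0 0 = γ 1 1 := by
  have h1 := (act_eq_iff γ ⟨⟨0, 1⟩, one_pos⟩).1 (h _)
  have h2 := (act_eq_iff γ ⟨⟨0, 2⟩, two_pos⟩).1 (h _)
  have e1 : (((⟨⟨0, 1⟩, one_pos⟩ : ℍ) : ℂ)) = ⟨0, 1⟩ := rfl
  have e2 : (((⟨⟨0, 2⟩, two_pos⟩ : ℍ) : ℂ)) = ⟨0, 2⟩ := rfl
  rw [e1] at h1
  rw [e2] at h2
  have h3 := congrArg Complex.re h1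
  have h4 := congrArg Complex.im h1
  have h5 := congrArg Complex.re h2
  simp [pow_two] at h3 h4 h5
  refine ⟨by linarith, by linarith, by linarith⟩

theorem act_mul (γ δ : SL(2, ℝ)) (z : ℍ) : act (γ * δ) z = act γ (act δ z) := mul_smul γ δ z

theorem act_inv_act (γ : SL(2, ℝ)) (z : ℍ) : act γ⁻¹ (act γ z) = z := inv_smul_smul γ z

theorem act_act_inv (γ : SL(2, ℝ)) (z : ℍ) : act γ (act γ⁻¹ z) = z := smul_inv_smul γ z

/-- an element without fixed points has a trace different from `0` -/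
theorem trace_ne {γ : SL(2, ℝ)} (h : ∀ z, act γ z ≠ z) : γ 0 0 + γ 1 1 ≠ 0 := by
  intro ht
  have hdet := det_one γ
  have hd : γ 1 1 = -γ 0 0 := by linarith
  rw [hd] at hdet
  have hc : γ 1 0 ≠ 0 := by
    intro hc
    rw [hc] at hdet
    nlinarith [sq_nonneg (γ 0 0)]
  have hpos : 0 < 1 / |γ 1 0| := one_div_pos.2 (abs_pos.2 hc)
  refine h ⟨⟨γ 0 0 / γ 1 0, 1 / |γ 1 0|⟩, hpos⟩ ?_
  rw [act_eq_iff]
  have e1 : (((⟨⟨γ 0 0 / γ 1 0, 1 / |γ 1 0|⟩, hpos⟩ : ℍ) : ℂ)) =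
    ⟨γ 0 0 / γ 1 0, 1 / |γ 1 0|⟩ := rfl
  rw [e1, hd]
  have hs : |γ 1 0| ^ 2 = γ 1 0 ^ 2 := sq_abs _
  have ha : |γ 1 0| ≠ 0 := abs_ne_zero.2 hc
  apply Complex.ext
  · simp [pow_two]
    field_simp
    rw [hs]
    nlinarith
  · simp [pow_two]
    field_simp
    ring

/-- the entries of commuting matrices -/
theorem entries_comm {γ δ : SL(2, ℝ)} (h : γ * δ = δ * γ) :
    γ 0 1 * δ 1 0 = δ 0 1 * γ 1 0 ∧ γ 0 1 * (δ 0 0 - δ 1 1) = δ 0 1 * (γ 0 0 - γ 1 1) ∧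
      γ 1 0 * (δ 0 0 - δ 1 1) = δ 1 0 * (γ 0 0 - γ 1 1) := by
  have h1 : (γ.1 * δ.1) = (δ.1 * γ.1) := congrArg Subtype.val h
  have h00 := congrFun (congrFun h1 0) 0
  have h01 := congrFun (congrFun h1 0) 1
  have h10 := congrFun (congrFun h1 1) 0
  simp only [Matrix.mul_apply, Fin.sum_univ_two] at h00 h01 h10
  change γ 0 0 * δ 0 0 + γ 0 1 * δ 1 0 = δ 0 0 * γ 0 0 + δ 0 1 * γ 1 0 at h00
  change γ 0 0 * δ 0 1 + γ 0 1 * δ 1 1 = δ 0 0 * γ 0 1 + δ 0 1 * γ 1 1 at h01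
  change γ 1 0 * δ 0 0 + γ 1 1 * δ 1 0 = δ 1 0 * γ 0 0 + δ 1 1 * γ 1 0 at h10
  refine ⟨by linarith, by linarith, by linarith⟩

theorem comm_of_entries {γ δ : SL(2, ℝ)}
    (h1 : γ 0 1 * δ 1 0 = δ 0 1 * γ 1 0) (h2 : γ 0 1 * (δ 0 0 - δ 1 1) = δ 0 1 * (γ 0 0 - γ 1 1))
    (h3 : γ 1 0 * (δ 0 0 - δ 1 1) = δ 1 0 * (γ 0 0 - γ 1 1)) : γ * δ = δ * γ := by
  apply Subtype.ext
  show γ.1 * δ.1 = δ.1 * γ.1
  apply Matrix.ext
  intro i j
  have e : ∀ (a b : SL(2, ℝ)) i j, (a.1 * b.1) i j = a i 0 * b 0 j + a i 1 * b 1 j := by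
    intro a b i j
    rw [Matrix.mul_apply, Fin.sum_univ_two]
  rw [e, e]
  fin_cases i <;> fin_cases j
  · show γ 0 0 * δ 0 0 + γ 0 1 * δ 1 0 = δ 0 0 * γ 0 0 + δ 0 1 * γ 1 0
    linarith
  · show γ 0 0 * δ 0 1 + γ 0 1 * δ 1 1 = δ 0 0 * γ 0 1 + δ 0 1 * γ 1 1
    linarith
  · show γ 1 0 * δ 0 0 + γ 1 1 * δ 1 0 = δ 1 0 * γ 0 0 + δ 1 1 * γ 1 0
    linarith
  · show γ 1 0 * δ 0 1 + γ 1 1 * δ 1 1 = δ 1 0 * γ 0 1 + δ 1 1 * γ 1 1
    linarith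

/-- matrices which commute with a matrix that is not scalar commute -/
theorem comm_of_comm {γ δ ε : SL(2, ℝ)} (h0 : ¬ (γ 1 0 = 0 ∧ γ 0 1 = 0 ∧ γ 0 0 = γ 1 1))
    (h1 : γ * δ = δ * γ) (h2 : γ * ε = ε * γ) : δ * ε = ε * δ := by
  obtain ⟨a1, a2, a3⟩ := entries_comm h1
  obtain ⟨b1, b2, b3⟩ := entries_comm h2
  by_cases hc : γ 1 0 = 0
  · by_cases hb : γ 0 1 = 0
    · have ha : γ 0 0 - γ 1 1 ≠ 0 := fun h => h0 ⟨hc, hb, sub_eq_zero.1 h⟩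
      rw [hb, zero_mul] at a2 b2
      rw [hc, zero_mul] at a3 b3
      have d1 := (mul_eq_zero.1 a2.symm).resolve_right ha
      have d2 := (mul_eq_zero.1 a3.symm).resolve_right ha
      have e1 := (mul_eq_zero.1 b2.symm).resolve_right ha
      have e2 := (mul_eq_zero.1 b3.symm).resolve_right ha
      refine comm_of_entries ?_ ?_ ?_
      · rw [d1, d2, e1, e2]
      · rw [d1, e1]
        ring
      · rw [d2, e2]
        ring
    · rw [hc, mul_zero] at a1 b1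
      have d1 := (mul_eq_zero.1 a1).resolve_left hb
      have e1 := (mul_eq_zero.1 b1).resolve_left hb
      refine comm_of_entries ?_ ?_ ?_
      · rw [d1, e1]
        ring
      · apply mul_left_cancel₀ hb
        linear_combination δ 0 1 * b2 - ε 0 1 * a2
      · rw [d1, e1]
        ring
  · have g1 : δ 0 1 * ε 1 0 = ε 0 1 * δ 1 0 := by
      apply mul_left_cancel₀ hc
      linear_combination δ 1 0 * b1 - ε 1 0 * a1
    refine comm_of_entries g1 ?_ ?_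
    · apply mul_left_cancel₀ hc
      linear_combination δ 0 1 * b3 - ε 0 1 * a3 + (γ 0 0 - γ 1 1) * g1
    · apply mul_left_cancel₀ hc
      linear_combination δ 1 0 * b3 - ε 1 0 * a3

/-- commuting transformations: the matrices commute or anticommute -/
theorem comm_or_neg {γ δ : SL(2, ℝ)} (h : ∀ z, act γ (act δ z) = act δ (act γ z)) :
    γ * δ = δ * γ ∨ γ * δ = -(δ * γ) := by
  have h1 : ∀ z, act ((δ * γ)⁻¹ * (γ * δ)) z = z := fun z => by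
    rw [act_mul, act_mul γ δ, h, ← act_mul δ γ, act_inv_act]
  obtain ⟨h2, h3, h4⟩ := scalar_of_act h1
  set g : SL(2, ℝ) := (δ * γ)⁻¹ * (γ * δ) with hg
  have hdet := det_one g
  rw [h2, h3, mul_zero, sub_zero, ← h4] at hdet
  have h5 : γ * δ = (δ * γ) * g := by rw [hg, mul_inv_cancel_left]
  rcases mul_self_eq_one_iff.1 hdet with h6 | h6
  · left
    have h7 : g = 1 := by
      apply Subtype.ext
      apply Matrix.ext
      intro i j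
      fin_cases i <;> fin_cases j
      · exact h6
      · exact h3
      · exact h2
      · exact h4.symm.trans h6
    rw [h5, h7, mul_one]
  · right
    have h7 : g = -1 := by
      apply Subtype.ext
      apply Matrix.ext
      intro i j
      fin_cases i <;> fin_cases j
      · show g 0 0 = (-(1 : Matrix (Fin 2) (Fin 2) ℝ)) 0 0
        rw [h6]
        simp
      · show g 0 1 = (-(1 : Matrix (Fin 2) (Fin 2) ℝ)) 0 1
        rw [h3]
        simp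
      · show g 1 0 = (-(1 : Matrix (Fin 2) (Fin 2) ℝ)) 1 0
        rw [h2]
        simp
      · show g 1 1 = (-(1 : Matrix (Fin 2) (Fin 2) ℝ)) 1 1
        rw [← h4, h6]
        simp
    rw [h5, h7, mul_neg, mul_one]

/-- if `γ δ = -δ γ` then the trace of `γ` is `0` -/
theorem trace_eq {γ δ : SL(2, ℝ)} (h : γ * δ = -(δ * γ)) : γ 0 0 + γ 1 1 = 0 := by
  have h1 : (γ.1 * δ.1) = -(δ.1 * γ.1) := congrArg Subtype.val h
  have h00 := congrFun (congrFun h1 0) 0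
  have h01 := congrFun (congrFun h1 0) 1
  have h10 := congrFun (congrFun h1 1) 0
  have h11 := congrFun (congrFun h1 1) 1
  simp only [Matrix.neg_apply, Matrix.mul_apply, Fin.sum_univ_two] at h00 h01 h10 h11
  change γ 0 0 * δ 0 0 + γ 0 1 * δ 1 0 = -(δ 0 0 * γ 0 0 + δ 0 1 * γ 1 0) at h00
  change γ 0 0 * δ 0 1 + γ 0 1 * δ 1 1 = -(δ 0 0 * γ 0 1 + δ 0 1 * γ 1 1) at h01
  change γ 1 0 * δ 0 0 + γ 1 1 * δ 1 0 = -(δ 1 0 * γ 0 0 + δ 1 1 * γ 1 0) at h10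
  change γ 1 0 * δ 0 1 + γ 1 1 * δ 1 1 = -(δ 1 0 * γ 0 1 + δ 1 1 * γ 1 1) at h11
  have hd := det_one δ
  linear_combination (-(γ 0 0 + γ 1 1)) * hd + (1 / 2) * δ 1 1 * h00 + (1 / 2) * δ 0 0 * h11 -
    (1 / 2) * δ 1 0 * h01 - (1 / 2) * δ 0 1 * h10

/-- The group of transformations of `ℍ` defined by `Γ`. -/
noncomputable def bar (Γ : Subgroup SL(2, ℝ)) : Subgroup (Equiv.Perm ℍ) :=
  Γ.map (MulAction.toPermHom SL(2, ℝ) ℍ)

theorem mem_bar {Γ : Subgroup SL(2, ℝ)} {g : Equiv.Perm ℍ} :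
    g ∈ bar Γ ↔ ∃ γ ∈ Γ, ∀ z, g z = act γ z := by
  rw [bar, Subgroup.mem_map]
  constructor
  · rintro ⟨γ, hγ, rfl⟩
    exact ⟨γ, hγ, fun z => rfl⟩
  · rintro ⟨γ, hγ, h⟩
    exact ⟨γ, hγ, Equiv.ext fun z => (h z).symm⟩

theorem ct_bar {Γ : Subgroup SL(2, ℝ)} (hΓ : IsSurfaceGroup Γ) : CT (bar Γ) := by
  rintro ⟨a, ha⟩ ⟨b, hb⟩ ⟨c, hc⟩ hne hab hac
  obtain ⟨γ, hγ, hγa⟩ := mem_bar.1 ha
  obtain ⟨δ, hδ, hδb⟩ := mem_bar.1 hb
  obtain ⟨ε, hε, hεc⟩ := mem_bar.1 hc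
  have hfix : ∀ z, act γ z ≠ z := by
    intro z hz
    refine hne (Subtype.ext (Equiv.ext fun w => ?_))
    show a w = w
    rw [hγa]
    exact hΓ.free γ hγ z hz w
  have h1 : ∀ z, act γ (act δ z) = act δ (act γ z) := fun z => by
    have h := congrArg (fun q : bar Γ => q.1 z) hab
    change a (b z) = b (a z) at h
    rwa [hδb, hγa, hγa, hδb] at h
  have h2 : ∀ z, act γ (act ε z) = act ε (act γ z) := fun z => by
    have h := congrArg (fun q : bar Γ => q.1 z) hac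
    change a (c z) = c (a z) at h
    rwa [hεc, hγa, hγa, hεc] at h
  have h3 : γ * δ = δ * γ := (comm_or_neg h1).resolve_right fun h => trace_ne hfix (trace_eq h)
  have h4 : γ * ε = ε * γ := (comm_or_neg h2).resolve_right fun h => trace_ne hfix (trace_eq h)
  have h0 : ¬ (γ 1 0 = 0 ∧ γ 0 1 = 0 ∧ γ 0 0 = γ 1 1) := fun h =>
    hfix UpperHalfPlane.I (act_scalar h.1 h.2.1 h.2.2 _)
  have h5 := comm_of_comm h0 h3 h4
  refine Subtype.ext (Equiv.ext fun z => ?_)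
  show b (c z) = c (b z)
  rw [hδb, hεc, hεc, hδb, ← act_mul, ← act_mul, h5]

/-- a bounded displacement is trivial -/
theorem act_eq_of_bdd {γ : SL(2, ℝ)} {C : ℝ} (h : ∀ z, dist (act γ z) z ≤ C) (z : ℍ) :
    act γ z = z := by
  obtain ⟨K, hK⟩ : ∃ K : ℝ, ∀ z : ℍ, ‖((γ 1 0 : ℝ) : ℂ) * z ^ 2 +
      (((γ 1 1 : ℝ) : ℂ) - ((γ 0 0 : ℝ) : ℂ)) * z - ((γ 0 1 : ℝ) : ℂ)‖ ≤ K * z.im := by
    refine ⟨2 * Real.sinh (C / 2), fun z => ?_⟩
    have h1 := UpperHalfPlane.dist_le_iff_le_sinh.1 (h z)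
    have hd := norm_pos_iff.2 (den_ne γ z)
    have hz := z.im_pos
    set D := ‖((γ 1 0 : ℝ) : ℂ) * z + ((γ 1 1 : ℝ) : ℂ)‖ with hD
    have h2 : √((act γ z).im * z.im) = z.im / D := by
      rw [im_act, ← hD]
      have : z.im / D ^ 2 * z.im = (z.im / D) ^ 2 := by ring
      rw [this, Real.sqrt_sq (div_pos hz hd).le]
    rw [h2] at h1
    have h3 : dist ((act γ z : ℍ) : ℂ) z = ‖((γ 1 0 : ℝ) : ℂ) * z ^ 2 +
      (((γ 1 1 : ℝ) : ℂ) - ((γ 0 0 : ℝ) : ℂ)) * z - ((γ 0 1 : ℝ) : ℂ)‖ / D := by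
      rw [dist_eq_norm, coe_act, div_sub' (den_ne γ z), norm_div, ← hD]
      congr 1
      rw [← norm_neg]
      congr 1
      ring
    rw [h3, div_le_iff₀ (by positivity)] at h1
    rw [div_le_iff₀ hd] at h1
    calc _ ≤ Real.sinh (C / 2) * (2 * (z.im / D)) * D := h1
      _ = 2 * Real.sinh (C / 2) * z.im := by field_simp
  have hK0 : 0 ≤ K := by
    have h1 := (norm_nonneg _).trans (hK UpperHalfPlane.I)
    rwa [UpperHalfPlane.I_im, mul_one] at h1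
  have hx : ∀ x : ℝ, |2 * γ 1 0 * x + (γ 1 1 - γ 0 0)| ≤ K ∧
      |γ 1 0 * (x ^ 2 - 1) + (γ 1 1 - γ 0 0) * x - γ 0 1| ≤ K := by
    intro x
    have h1 := hK ⟨⟨x, 1⟩, one_pos⟩
    have e1 : (((⟨⟨x, 1⟩, one_pos⟩ : ℍ) : ℂ)) = ⟨x, 1⟩ := rfl
    have e2 : (⟨⟨x, 1⟩, one_pos⟩ : ℍ).im = 1 := rfl
    rw [e1, e2, mul_one] at h1
    constructor
    · refine le_trans ?_ h1
      refine le_trans (le_of_eq ?_) (Complex.abs_im_le_norm _)
      congr 1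
      simp [pow_two]
      ring
    · refine le_trans ?_ h1
      refine le_trans (le_of_eq ?_) (Complex.abs_re_le_norm _)
      congr 1
      simp [pow_two]
  have hc : γ 1 0 = 0 := by
    by_contra hc
    have h1 := (hx ((K + 1 + |γ 1 1 - γ 0 0|) / (2 * γ 1 0))).1
    rw [mul_div_cancel₀ _ (mul_ne_zero two_ne_zero hc)] at h1
    have h2 := le_abs_self (K + 1 + |γ 1 1 - γ 0 0| + (γ 1 1 - γ 0 0))
    have h3 := neg_abs_le (γ 1 1 - γ 0 0)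
    linarith
  have had : γ 1 1 - γ 0 0 = 0 := by
    by_contra had
    have h1 := (hx ((K + 1 + |γ 0 1|) / (γ 1 1 - γ 0 0))).2
    rw [hc, zero_mul, zero_add, mul_div_cancel₀ _ had] at h1
    have h2 := le_abs_self (K + 1 + |γ 0 1| - γ 0 1)
    have h3 := le_abs_self (γ 0 1)
    linarith
  have hb : γ 0 1 = 0 := by
    by_contra hb
    have hb' := abs_pos.2 hb
    have hpos : 0 < |γ 0 1| / (2 * (K + 1)) := by positivity
    have h1 := hK ⟨⟨0, |γ 0 1| / (2 * (K + 1))⟩, hpos⟩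
    have e2 : (⟨⟨0, |γ 0 1| / (2 * (K + 1))⟩, hpos⟩ : ℍ).im = |γ 0 1| / (2 * (K + 1)) := rfl
    have e3 : ((γ 1 1 : ℝ) : ℂ) - ((γ 0 0 : ℝ) : ℂ) = 0 := by
      rw [← Complex.ofReal_sub, had, Complex.ofReal_zero]
    rw [e2, e3, hc, Complex.ofReal_zero, zero_mul, zero_mul, zero_add, zero_sub, norm_neg,
      Complex.norm_real, Real.norm_eq_abs] at h1
    have h2 : K * (|γ 0 1| / (2 * (K + 1))) < |γ 0 1| := by
      rw [mul_div_assoc', div_lt_iff₀ (by positivity)]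
      nlinarith
    linarith
  exact act_scalar hc hb (by linarith) z

theorem nc_bar {Γ : Subgroup SL(2, ℝ)} (hΓ : IsSurfaceGroup Γ) : NC (bar Γ) := by
  by_contra hne
  have hcomm : ∀ γ ∈ Γ, ∀ δ ∈ Γ, ∀ z, act γ (act δ z) = act δ (act γ z) := by
    intro γ hγ δ hδ z
    by_contra h
    refine hne ⟨⟨MulAction.toPerm γ, mem_bar.2 ⟨γ, hγ, fun _ => rfl⟩⟩,
      ⟨MulAction.toPerm δ, mem_bar.2 ⟨δ, hδ, fun _ => rfl⟩⟩, fun h' => h ?_⟩
    exact congrArg (fun q : bar Γ => q.1 z) h'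
  obtain ⟨K, hK, hc⟩ := hΓ.cocompact
  have htriv : ∀ γ ∈ Γ, ∀ z, act γ z = z := by
    intro γ hγ
    have hcont : Continuous fun z => dist (act γ z) z := by
      have h1 : Continuous fun z : ℍ => act γ z := continuous_const_smul γ
      exact h1.dist continuous_id
    obtain ⟨C, hC⟩ := hK.exists_bound_of_continuousOn hcont.continuousOn
    refine act_eq_of_bdd (C := C) fun z => ?_
    obtain ⟨δ, hδ, hz⟩ := hc z
    have h1 := hC _ hz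
    rw [Real.norm_eq_abs] at h1
    have h2 : dist (act γ (act δ z)) (act δ z) = dist (act γ z) z := by
      rw [hcomm γ hγ δ hδ]
      exact dist_smul δ _ _
    rw [h2] at h1
    exact (le_abs_self _).trans h1
  have huniv : (univ : Set ℍ) ⊆ K := fun z _ => by
    obtain ⟨δ, hδ, hz⟩ := hc z
    rwa [htriv δ hδ] at hz
  exact noncompact_univ ℍ (hK.of_isClosed_subset isClosed_univ huniv)

end Pool.Agent.ANO5.Aut
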