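import Mathlib

/-!
# Automorphisms of products of groups with commutative centralizers

`G (some i)`, `i : κ` (finite), are not commutative, the centralizers of their nontrivial elements
are commutative; `G none` has a trivial centre and no direct factor isomorphic to one of the
`G (some i)`; `Z` is a commutative group. The power `|κ|!` of every automorphism of `(Π i, G i) × Z`
maps every `G i` to itself modulo `Z`, and `Z` to itself (`per_pow`).
-/

set_option autoImplicit false
set_option linter.unusedSectionVars false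

namespace Pool.Agent.ANO5.Aut

/-- The centralizers of the nontrivial elements are commutative. -/
def CT (G : Type) [Group G] : Prop :=
  ∀ a b c : G, a ≠ 1 → a * b = b * a → a * c = c * a → b * c = c * b

/-- The group is not commutative. -/
def NC (G : Type) [Group G] : Prop := ∃ a b : G, a * b ≠ b * a

variable {ι : Type} [Fintype ι] [DecidableEq ι] {G : ι → Type} [∀ i, Group (G i)]
  {Z : Type} [CommGroup Z]

/-- The element of the `i`-th factor. -/
def inc (i : ι) (g : G i) : (∀ i, G i) × Z := (Pi.mulSingle i g, 1)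

/-- The element of the last factor. -/
def incZ (v : Z) : (∀ i, G i) × Z := (1, v)

/-- A subgroup which contains all factors is the whole group. -/
theorem mem_of_inc (H : Subgroup ((∀ i, G i) × Z)) (h1 : ∀ i (g : G i), inc i g ∈ H)
    (h2 : ∀ v : Z, incZ v ∈ H) (x : (∀ i, G i) × Z) : x ∈ H := by
  have h3 : ((x.1, 1) : (∀ i, G i) × Z) ∈ H := by
    have h4 := Subgroup.pi_mem_of_mulSingle_mem
      (H := H.comap (MonoidHom.inl (∀ i, G i) Z)) x.1 fun i => h1 i (x.1 i)
    exact h4
  have h4 : x = (x.1, 1) * incZ x.2 := by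
    refine Prod.ext ?_ ?_
    · simp [incZ]
    · simp [incZ]
  rw [h4]
  exact H.mul_mem h3 (h2 x.2)

theorem inc_comm {i j : ι} (hij : i ≠ j) (g : G i) (g' : G j) :
    (inc i g : (∀ i, G i) × Z) * inc j g' = inc j g' * inc i g := by
  refine Prod.ext ?_ ?_
  · exact (Pi.mulSingle_commute hij g g').eq
  · simp [inc]

theorem incZ_comm (v : Z) (x : (∀ i, G i) × Z) : incZ v * x = x * incZ v := by
  refine Prod.ext ?_ ?_
  · simp [incZ]
  · exact mul_comm _ _

/-- Two commuting homomorphic images. -/
theorem comm_of_gen {K : Type} [Group K] (f : ((∀ i, G i) × Z) →* K)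
    (h1 : ∀ i (g : G i) j (g' : G j), f (inc i g) * f (inc j g') = f (inc j g') * f (inc i g))
    (x y : (∀ i, G i) × Z) : f x * f y = f y * f x := by
  have hZ : ∀ v x, f (incZ v) * f x = f x * f (incZ v) := fun v x => by
    rw [← map_mul, incZ_comm, map_mul]
  have h2 : ∀ i (g : G i) y, f (inc i g) * f y = f y * f (inc i g) := by
    intro i g y
    have h3 := mem_of_inc ((Subgroup.centralizer {f (inc i g)}).comap f)
      (fun j g' => by
        rw [Subgroup.mem_comap, Subgroup.mem_centralizer_singleton_iff]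
        exact (h1 j g' i g)) (fun v => by
        rw [Subgroup.mem_comap, Subgroup.mem_centralizer_singleton_iff]
        exact hZ v _) y
    rw [Subgroup.mem_comap, Subgroup.mem_centralizer_singleton_iff] at h3
    exact h3.symm
  have h3 := mem_of_inc ((Subgroup.centralizer {f y}).comap f)
    (fun j g' => by
      rw [Subgroup.mem_comap, Subgroup.mem_centralizer_singleton_iff]
      exact h2 j g' y) (fun v => by
      rw [Subgroup.mem_comap, Subgroup.mem_centralizer_singleton_iff]
      exact hZ v y) x
  rw [Subgroup.mem_comap, Subgroup.mem_centralizer_singleton_iff] at h3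
  exact h3

/-- A surjective homomorphism to a group as above is not trivial on exactly one of the factors. -/
theorem exists_unique_factor {K : Type} [Group K] (hCT : CT K) (hNC : NC K)
    (f : ((∀ i, G i) × Z) →* K) (hf : Function.Surjective f) :
    (∀ v, f (incZ v) = 1) ∧ ∃ i, (∃ g, f (inc i g) ≠ 1) ∧ ∀ j, j ≠ i → ∀ g, f (inc j g) = 1 := by
  obtain ⟨a, b, hab⟩ := hNC
  have h0 : ∀ v, f (incZ v) = 1 := by
    intro v
    by_contra hne
    refine hab ?_
    obtain ⟨x, rfl⟩ := hf a
    obtain ⟨y, rfl⟩ := hf b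
    refine hCT _ _ _ hne ?_ ?_
    · rw [← map_mul, incZ_comm, map_mul]
    · rw [← map_mul, incZ_comm, map_mul]
  refine ⟨h0, ?_⟩
  have h1 : ∃ i, ∃ g, f (inc i g) ≠ 1 := by
    by_contra hne
    push Not at hne
    have h2 : ∀ x, f x = 1 := fun x => by
      have h3 := mem_of_inc f.ker (fun i g => hne i g) (fun v => h0 v) x
      exact h3
    obtain ⟨x, rfl⟩ := hf a
    obtain ⟨y, rfl⟩ := hf b
    exact hab (by rw [h2, h2])
  obtain ⟨i, g₀, hg₀⟩ := h1
  refine ⟨i, ⟨g₀, hg₀⟩, fun j hj g₁ => ?_⟩
  by_contra hg₁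
  refine hab ?_
  obtain ⟨x, rfl⟩ := hf a
  obtain ⟨y, rfl⟩ := hf b
  refine comm_of_gen f (fun l u l' u' => ?_) x y
  by_cases hl : l = l'
  · subst hl
    by_cases hli : l = i
    · subst hli
      refine hCT _ _ _ hg₁ ?_ ?_
      · rw [← map_mul, inc_comm hj, map_mul]
      · rw [← map_mul, inc_comm hj, map_mul]
    · refine hCT _ _ _ hg₀ ?_ ?_
      · rw [← map_mul, inc_comm (Ne.symm hli), map_mul]
      · rw [← map_mul, inc_comm (Ne.symm hli), map_mul]
  · rw [← map_mul, inc_comm hl, map_mul]

/-- `φ` maps the `i`-th factor to the `σ i`-th factor modulo `Z`, and `Z` to itself. -/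
def Per (φ : ((∀ i, G i) × Z) ≃* ((∀ i, G i) × Z)) (σ : Equiv.Perm ι) : Prop :=
  (∀ i (g : G i) l, l ≠ σ i → (φ (inc i g)).1 l = 1) ∧ ∀ v l, (φ (incZ v)).1 l = 1

/-- the projection to the `l`-th factor -/
def prj (l : ι) : ((∀ i, G i) × Z) →* G l := (Pi.evalMonoidHom G l).comp (MonoidHom.fst _ _)

theorem prj_apply (l : ι) (x : (∀ i, G i) × Z) : prj l x = x.1 l := rfl

theorem prj_surjective (l : ι) : Function.Surjective (prj l : ((∀ i, G i) × Z) →* G l) := by
  intro g
  refine ⟨inc l g, ?_⟩
  rw [prj_apply]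
  exact Pi.mulSingle_eq_same l g

/-- The centre is trivial. -/
def Cl (G : Type) [Group G] : Prop := ∀ a : G, (∀ b, a * b = b * a) → a = 1

/-- `K` is a direct factor of `H`. -/
def Fac (K H : Type) [Group K] [Group H] : Prop :=
  ∃ (s : K →* H) (p : H →* K), (∀ k, p (s k) = k) ∧ ∀ k b, p b = 1 → s k * b = b * s k

theorem Cl.of_ct {G : Type} [Group G] (h : CT G) (h' : NC G) : Cl G := by
  intro a ha
  by_contra hne
  obtain ⟨b, c, hbc⟩ := h'
  exact hbc (h a b c hne (ha b) (ha c))

theorem inc_mul (i : ι) (g g' : G i) :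
    (inc i (g * g') : (∀ i, G i) × Z) = inc i g * inc i g' := by
  refine Prod.ext ?_ ?_
  · exact Pi.mulSingle_mul i g g'
  · simp [inc]

theorem inc_same (i : ι) (g : G i) : (inc i g : (∀ i, G i) × Z).1 i = g :=
  Pi.mulSingle_eq_same i g

theorem inc_of_ne {i j : ι} (h : j ≠ i) (g : G i) : (inc i g : (∀ i, G i) × Z).1 j = 1 :=
  Pi.mulSingle_eq_of_ne h g

/-- An element with a trivial `i`-th component commutes with the `i`-th factor. -/
theorem comm_inc (i : ι) (g : G i) (x : (∀ i, G i) × Z) (hx : x.1 i = 1) :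
    inc i g * x = x * inc i g := by
  refine Prod.ext (funext fun j => ?_) ?_
  · show (inc i g : (∀ i, G i) × Z).1 j * x.1 j = x.1 j * (inc i g : (∀ i, G i) × Z).1 j
    by_cases hj : j = i
    · subst hj
      rw [hx, one_mul, mul_one]
    · rw [inc_of_ne hj, one_mul, mul_one]
  · exact mul_comm _ _

/-- An element which commutes with the `i`-th factor has a central `i`-th component. -/
theorem eq_one_of_comm {i : ι} (hi : Cl (G i)) {x : (∀ i, G i) × Z}
    (hx : ∀ g : G i, x * inc i g = inc i g * x) : x.1 i = 1 := by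
  refine hi _ fun g => ?_
  have h := congrArg (fun q : (∀ i, G i) × Z => q.1 i) (hx g)
  simpa only [Prod.fst_mul, Pi.mul_apply, inc_same] using h

section Option

variable {κ : Type} [Fintype κ] [DecidableEq κ] {G : Option κ → Type} [∀ i, Group (G i)]

private theorem key_Grp (hCT : ∀ i, CT (G (some i))) (hNC : ∀ i, NC (G (some i)))
    (hcl : Cl (G none)) (hfac : ∀ i, ¬ Fac (G (some i)) (G none))
    (φ : ((∀ i, G i) × Z) ≃* ((∀ i, G i) × Z)) (l : κ) :
    (∀ h, (φ (inc none h)).1 (some l) = 1) ∧ ∃ i : κ, (∃ g, (φ (inc (some i) g)).1 (some l) ≠ 1) ∧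
      ∀ j, j ≠ i → ∀ g, (φ (inc (some j) g)).1 (some l) = 1 := by
  obtain ⟨-, a, h1, h2⟩ := exists_unique_factor (hCT l) (hNC l)
    ((prj (some l)).comp φ.toMonoidHom) ((prj_surjective (some l)).comp φ.surjective)
  have hall : ∀ i, Cl (G i) := fun i => by
    cases i with
    | none => exact hcl
    | some i => exact Cl.of_ct (hCT i) (hNC i)
  cases a with
  | some i =>
    exact ⟨fun h => h2 none (by simp) h, i, h1, fun j hj g => h2 (some j) (by simpa using hj) g⟩
  | none =>
    exfalso
    refine hfac l ?_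
    have hx : ∀ (g : G (some l)) (i : κ), (φ.symm (inc (some l) g)).1 (some i) = 1 := by
      intro g i
      refine eq_one_of_comm (hall _) fun u => ?_
      apply φ.injective
      rw [map_mul, map_mul, φ.apply_symm_apply]
      exact comm_inc _ _ _ (h2 (some i) (by simp) u)
    have hx' : ∀ g : G (some l), φ.symm (inc (some l) g) =
        inc none ((φ.symm (inc (some l) g)).1 none) * incZ (φ.symm (inc (some l) g)).2 := by
      intro g
      refine Prod.ext (funext fun j => ?_) ?_
      · cases j with
        | none =>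
          show _ = (inc none _ : (∀ i, G i) × Z).1 none * 1
          rw [inc_same, mul_one]
        | some j =>
          rw [hx]
          show 1 = (inc none _ : (∀ i, G i) × Z).1 (some j) * 1
          rw [inc_of_ne (by simp), mul_one]
      · show _ = 1 * _
        rw [one_mul]
        rfl
    refine ⟨⟨⟨fun g => (φ.symm (inc (some l) g)).1 none, ?_⟩, ?_⟩,
      ⟨⟨fun h => (φ (inc none h)).1 (some l), ?_⟩, ?_⟩, ?_, ?_⟩
    · have h3 : (inc (some l) 1 : (∀ i, G i) × Z) = 1 := Prod.ext (Pi.mulSingle_one _) rfl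
      simp only [h3, map_one, Prod.fst_one, Pi.one_apply]
    · intro g g'
      simp only [inc_mul, map_mul, Prod.fst_mul, Pi.mul_apply]
    · have h3 : (inc none 1 : (∀ i, G i) × Z) = 1 := Prod.ext (Pi.mulSingle_one _) rfl
      simp only [h3, map_one, Prod.fst_one, Pi.one_apply]
    · intro g g'
      simp only [inc_mul, map_mul, Prod.fst_mul, Pi.mul_apply]
    · intro g
      show (φ (inc none ((φ.symm (inc (some l) g)).1 none))).1 (some l) = g
      have hZ := (exists_unique_factor (hCT l) (hNC l)
        ((prj (some l)).comp φ.toMonoidHom) ((prj_surjective (some l)).comp φ.surjective)).1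
        (φ.symm (inc (some l) g)).2
      have hZ' : (φ (incZ (φ.symm (inc (some l) g)).2)).1 (some l) = 1 := hZ
      have h3 := congrArg (fun q => (φ q).1 (some l)) (hx' g)
      simp only [φ.apply_symm_apply, map_mul, Prod.fst_mul, Pi.mul_apply] at h3
      rw [hZ', mul_one, inc_same] at h3
      exact h3.symm
    · intro g b hb
      have hb' : (φ (inc none b)).1 (some l) = 1 := hb
      have h3 : φ.symm (inc (some l) g) * inc none b = inc none b * φ.symm (inc (some l) g) := by
        apply φ.injective
        rw [map_mul, map_mul, φ.apply_symm_apply]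
        exact comm_inc _ _ _ hb'
      have h4 := congrArg (fun q : (∀ i, G i) × Z => q.1 none) h3
      simp only [Prod.fst_mul, Pi.mul_apply, inc_same] at h4
      exact h4

theorem exists_per (hCT : ∀ i, CT (G (some i))) (hNC : ∀ i, NC (G (some i)))
    (hcl : Cl (G none)) (hfac : ∀ i, ¬ Fac (G (some i)) (G none))
    (φ : ((∀ i, G i) × Z) ≃* ((∀ i, G i) × Z)) :
    ∃ σ : Equiv.Perm κ, Per φ (Equiv.optionCongr σ) := by
  have hall : ∀ i, Cl (G i) := fun i => by
    cases i with
    | none => exact hcl
    | some i => exact Cl.of_ct (hCT i) (hNC i)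
  have hZ : ∀ (ψ : ((∀ i, G i) × Z) ≃* ((∀ i, G i) × Z)) v a, (ψ (incZ v)).1 a = 1 := by
    intro ψ v a
    refine eq_one_of_comm (hall a) fun g => ?_
    obtain ⟨x, hx⟩ := ψ.surjective (inc a g)
    rw [← hx, ← map_mul, ← map_mul, incZ_comm]
  choose h0 τ hτ1 hτ2 using key_Grp hCT hNC hcl hfac φ
  have h0' := fun l => (key_Grp hCT hNC hcl hfac φ.symm l).1
  have hsurj : Function.Surjective τ := by
    intro i
    obtain ⟨a, b, hab⟩ := hNC i
    have ha : a ≠ 1 := by
      rintro rfl
      exact hab (by rw [one_mul, mul_one])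
    by_contra hne
    push Not at hne
    have h1 : ∀ l, (φ (inc (some i) a)).1 (some l) = 1 := fun l => hτ2 l i (Ne.symm (hne l)) a
    have h2 : φ (inc (some i) a) = inc none ((φ (inc (some i) a)).1 none) *
        incZ (φ (inc (some i) a)).2 := by
      refine Prod.ext (funext fun j => ?_) ?_
      · cases j with
        | none =>
          show _ = (inc none _ : (∀ i, G i) × Z).1 none * 1
          rw [inc_same, mul_one]
        | some j =>
          rw [h1]
          show 1 = (inc none _ : (∀ i, G i) × Z).1 (some j) * 1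
          rw [inc_of_ne (by simp), mul_one]
      · show _ = 1 * _
        rw [one_mul]
        rfl
    have h3 := congrArg (fun q => (φ.symm q).1 (some i)) h2
    simp only [φ.symm_apply_apply, map_mul, Prod.fst_mul, Pi.mul_apply] at h3
    rw [h0' i, hZ, inc_same, one_mul] at h3
    exact ha h3
  have hbij : Function.Bijective τ := ⟨Finite.injective_iff_surjective.2 hsurj, hsurj⟩
  refine ⟨(Equiv.ofBijective τ hbij).symm, fun i g l hl => ?_, fun v l => hZ φ v l⟩
  cases i with
  | some i =>
    cases l with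
    | some l =>
      refine hτ2 l i (fun h => hl ?_) g
      simp only [Equiv.optionCongr_apply, Option.map_some, Option.some.injEq]
      rw [Equiv.eq_symm_apply]
      exact h.symm
    | none =>
      refine eq_one_of_comm (hall _) fun u => ?_
      -- `inc none u` is the image of an element of the last factor
      have h1 : ∀ j, (φ.symm (inc none u)).1 (some j) = 1 := fun j => h0' j u
      apply φ.symm.injective
      rw [map_mul, map_mul, φ.symm_apply_apply]
      exact comm_inc _ _ _ (h1 i)
  | none =>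
    cases l with
    | some l => exact h0 l g
    | none => exact (hl rfl).elim

end Option

theorem Per.mul {φ ψ : MulAut ((∀ i, G i) × Z)} {σ τ : Equiv.Perm ι} (h : Per φ σ)
    (h' : Per ψ τ) : Per (φ * ψ : MulAut ((∀ i, G i) × Z)) (σ * τ) := by
  constructor
  · intro i g l hl
    have h1 : ψ (inc i g) = inc (τ i) ((ψ (inc i g)).1 (τ i)) * incZ (ψ (inc i g)).2 := by
      refine Prod.ext (funext fun j => ?_) ?_
      · by_cases hj : j = τ i
        · subst hj
          simp [inc, incZ]
        · rw [h'.1 i g j hj]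
          simp [inc, incZ, hj]
      · simp [inc, incZ]
    show (φ (ψ (inc i g))).1 l = 1
    rw [h1, map_mul]
    show (φ (inc (τ i) _)).1 l * (φ (incZ _)).1 l = 1
    rw [h.1 _ _ l hl, h.2, one_mul]
  · intro v l
    have h1 : ψ (incZ v) = incZ (ψ (incZ v)).2 := Prod.ext (funext fun j => h'.2 v j) rfl
    show (φ (ψ (incZ v))).1 l = 1
    rw [h1, h.2]

theorem Per.one : Per (1 : MulAut ((∀ i, G i) × Z)) (1 : Equiv.Perm ι) := by
  constructor
  · intro i g l hl
    show (Pi.mulSingle i g : ∀ i, G i) l = 1
    exact Pi.mulSingle_eq_of_ne hl g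
  · intro v l
    rfl

theorem Per.pow {φ : MulAut ((∀ i, G i) × Z)} {σ : Equiv.Perm ι} (h : Per φ σ) (n : ℕ) :
    Per (φ ^ n : MulAut ((∀ i, G i) × Z)) (σ ^ n) := by
  induction n with
  | zero =>
    rw [pow_zero, pow_zero]
    exact Per.one
  | succ n ih =>
    rw [pow_succ, pow_succ]
    exact ih.mul h

theorem optionCongr_pow {κ : Type} (σ : Equiv.Perm κ) (n : ℕ) :
    (Equiv.optionCongr σ : Equiv.Perm (Option κ)) ^ n = Equiv.optionCongr (σ ^ n) := by
  induction n with
  | zero =>
    refine Equiv.ext fun a => ?_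
    cases a <;> rfl
  | succ n ih =>
    rw [pow_succ, ih, pow_succ]
    refine Equiv.ext fun a => ?_
    cases a <;> rfl

/-- The power `|κ|!` of `φ` maps every factor to itself modulo `Z`, and `Z` to itself. -/
theorem per_pow {κ : Type} [Fintype κ] [DecidableEq κ] {G : Option κ → Type}
    [∀ i, Group (G i)] (hCT : ∀ i, CT (G (some i))) (hNC : ∀ i, NC (G (some i)))
    (hcl : Cl (G none)) (hfac : ∀ i, ¬ Fac (G (some i)) (G none))
    (φ : MulAut ((∀ i, G i) × Z)) :
    Per (φ ^ (Fintype.card κ).factorial : MulAut ((∀ i, G i) × Z))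
      (1 : Equiv.Perm (Option κ)) := by
  obtain ⟨σ, hσ⟩ := exists_per hCT hNC hcl hfac φ
  have h := hσ.pow (Fintype.card κ).factorial
  rw [optionCongr_pow, ← Fintype.card_perm, pow_card_eq_one] at h
  have e : (Equiv.optionCongr (1 : Equiv.Perm κ) : Equiv.Perm (Option κ)) = 1 := by
    refine Equiv.ext fun a => ?_
    cases a <;> rfl
  rwa [e, Fintype.card_perm] at h

end Pool.Agent.ANO5.Aut
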