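import Pool.Agent.ANO5.Aut.Comp
import Pool.Agent.ANO5.Stmt.Main

/-!
# The components of a diffeomorphism of `S₁ × ⋯ × S_r × N × T^k`, for the definitions of `Stmt`
-/

set_option autoImplicit false

open scoped UpperHalfPlane MatrixGroups Nat
open Set

namespace Pool.Agent.ANO5.Aut

open Pool.Agent.ANO2.Stmt (act IsSurfaceGroup)
open Pool.Agent.ANO5.Stmt (X IsDeck IsTwist Homotopic model IsHadamard IsDiffeoLift)

theorem cl_of_center {H : Type} [Group H] (h : Subgroup.center H = ⊥) : Cl H := fun a ha => by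
  have h1 : a ∈ Subgroup.center H := Subgroup.mem_center_iff.2 fun b => (ha b).symm
  rw [h] at h1
  exact Subgroup.mem_bot.1 h1

theorem not_fac {K H : Type} [Group K] [Group H]
    (h : ∀ (B : Type) [Group B], IsEmpty (H ≃* K × B)) : ¬ Fac K H := fun hf => by
  obtain ⟨B, hB, ⟨e⟩⟩ := exists_equiv_of_fac hf
  exact (h B).false e

variable {W : Type} [MetricSpace W] {d r k : ℕ} {crd : W ≃ₜ (Fin d → ℝ)}
  {G : Subgroup (Equiv.Perm W)} {nrm : W → (Fin d → ℝ) → ℝ} {geo : ℝ → W → W → W}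

theorem continuous_of_isC1 (hN : IsHadamard crd G nrm geo) {F : X W r k → X W r k}
    (hF : Stmt.IsC1 crd F) : Continuous F := by
  let : TFib := Stmt.tfib hN k
  exact A1.Idx.continuous_of_loc (r := r) (G := F) hF.continuousOn

/-- If the fundamental group `G` of `N` has a trivial centre and is not the product of the
fundamental group of one of the `S_i` and another group then `F^(r!)` is homotopic to the model of
its components. -/
theorem main (hN : IsHadamard crd G nrm geo) {Γ : Fin r → Subgroup SL(2, ℝ)}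
    (hΓ : ∀ i, IsSurfaceGroup (Γ i)) (hc : Subgroup.center G = ⊥)
    (hf : ∀ (i : Fin r) (K : Type) [Group K],
      IsEmpty (G ≃* ((Γ i).map (MulAction.toPermHom SL(2, ℝ) ℍ)) × K))
    {F F' : X W r k → X W r k} (hF : IsDiffeoLift crd Γ G F F') (x : X W r k) :
    (∀ i, Continuous (Stmt.compS F^[r !] x i)) ∧ Continuous (Stmt.compN F^[r !] x) ∧
      ∃ (A : Matrix (Fin k) (Fin k) ℤ) (τ : (Fin r → ℍ) → W → (Fin k → ℝ)), IsTwist Γ G τ ∧
        Homotopic Γ G (model (Stmt.compS F^[r !] x) (Stmt.compN F^[r !] x) A τ) F^[r !] := by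
  have hW : Nonempty W := ⟨crd.symm 0⟩
  have hcF := continuous_of_isC1 hN hF.smooth
  have hFn : IsNormalizer Γ G F F' := ⟨hF.left_inv, hF.right_inv, hF.normalizes, hF.normalizes'⟩
  exact ⟨continuous_compS hcF x, continuous_compN hcF x,
    comp_homotopic hΓ (cl_of_center hc) (fun i => not_fac (hf i)) hFn hcF x⟩

/-- The theorem for all Anosov diffeomorphisms: the components of `F^(r!)` do not all have
normal forms and finite order. -/
theorem final (hmain : MainStatement) (hN : IsHadamard crd G nrm geo) (hrd : 0 < r ∨ 0 < d)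
    {Γ : Fin r → Subgroup SL(2, ℝ)} (hΓ : ∀ i, IsSurfaceGroup (Γ i))
    (hc : Subgroup.center G = ⊥)
    (hf : ∀ (i : Fin r) (K : Type) [Group K],
      IsEmpty (G ≃* ((Γ i).map (MulAction.toPermHom SL(2, ℝ) ℍ)) × K))
    {F : X W r k → X W r k} (hF : Stmt.IsAnosovLift crd Γ G nrm F) (x : X W r k) :
    ¬ ((∀ i, Stmt.HasNormalForm (Γ i) (Stmt.compS F^[r !] x i)) ∧
      Stmt.IsPeriodic G (Stmt.compN F^[r !] x)) := by
  rintro ⟨h1, h2⟩
  obtain ⟨F', P, hFd, -⟩ := id hF
  obtain ⟨-, -, A, τ, hτ, hhom⟩ := main hN hΓ hc hf hFd x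
  exact Stmt.main hmain hN r k hrd Γ hΓ _ h1 _ h2 A τ hτ F hF (r !) (Nat.factorial_pos r) hhom

end Pool.Agent.ANO5.Aut
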