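import Pool.Agent.ANO5.Aut.Cover

/-!
# A condition on the factor `N` instead of one on the diffeomorphism

If every automorphism of the fundamental group `G` of `N` has an inner power (the outer automorphism
group of `G` is a torsion group) then the component of `F^(r!)` in `N` is always periodic.
-/

set_option autoImplicit false
set_option linter.unusedSectionVars false

open scoped UpperHalfPlane MatrixGroups Nat
open Set

namespace Pool.Agent.ANO5.Aut

open Pool.Agent.ANO2.Stmt (act IsSurfaceGroup)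
open Pool.Agent.ANO5.Stmt (X IsDeck IsHadamard IsDiffeoLift IsFinitelyCovered IsCoverMap)

section Abstract

variable {ι : Type} [Fintype ι] [DecidableEq ι] {G : ι → Type} [∀ i, Group (G i)]
  {Z : Type} [CommGroup Z]

/-- The automorphism of a factor which is induced by an automorphism of the product. -/
theorem Per.exists_comp {α : MulAut ((∀ i, G i) × Z)} (h : Per α (1 : Equiv.Perm ι)) (a : ι)
    (ha : Cl (G a)) : ∃ e : MulAut (G a), ∀ g, e g = (α (inc a g)).1 a := by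
  let f : G a →* G a :=
    { toFun := fun g => (α (inc a g)).1 a
      map_one' := by
        have h1 : (inc a 1 : (∀ i, G i) × Z) = 1 := Prod.ext (Pi.mulSingle_one a) rfl
        rw [h1, map_one]
        rfl
      map_mul' := fun g g' => by
        rw [inc_mul, map_mul]
        rfl }
  have hf : ∀ g, f g = (α (inc a g)).1 a := fun g => rfl
  have hbij : Function.Bijective f := by
    constructor
    · rw [injective_iff_map_eq_one]
      intro g hg
      have h1 : α (inc a g) = incZ (α (inc a g)).2 := by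
        refine Prod.ext (funext fun l => ?_) rfl
        by_cases hl : l = a
        · subst hl
          exact hg
        · exact h.1 a g l hl
      refine ha g fun b => ?_
      have h2 : (inc a g : (∀ i, G i) × Z) * inc a b = inc a b * inc a g := by
        apply α.injective
        rw [map_mul, map_mul, h1, incZ_comm]
      have h3 := congrArg (fun q : (∀ i, G i) × Z => q.1 a) h2
      simpa only [Prod.fst_mul, Pi.mul_apply, inc_same] using h3
    · intro u
      refine ⟨((α⁻¹ : MulAut _) (inc a u)).1 a, ?_⟩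
      rw [hf, ← h.apply, MulAut.apply_inv_self, inc_same]
  exact ⟨MulEquiv.ofBijective f hbij, fun g => rfl⟩

end Abstract

section Comp

variable {W : Type} {r k : ℕ} {Γ : Fin r → Subgroup SL(2, ℝ)} {G : Subgroup (Equiv.Perm W)}

/-- The component in `N` induces an automorphism of the fundamental group of `N`. -/
theorem exists_compN_auto [Nonempty W] (hΓ : ∀ i, IsSurfaceGroup (Γ i)) (hcl : Cl G)
    (hfac : ∀ i, ¬ Fac (bar (Γ i)) G) {F F' : X W r k → X W r k} (hF : IsNormalizer Γ G F F')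
    (x : X W r k) :
    ∃ e : MulAut G, ∀ (δ : G) y, compN F x (δ.1 y) = (e δ).1 (compN F x y) := by
  obtain ⟨α, hα⟩ := exists_auto hF
  have hper : Per (α ^ r.factorial : MulAut (Pi1 Γ G k)) (1 : Equiv.Perm (Option (Fin r))) := by
    have h := per_pow (G := Gp Γ G) (fun i => ct_bar (hΓ i)) (fun i => nc_bar (hΓ i)) hcl hfac α
    rwa [Fintype.card_fin] at h
  have hn := hα r.factorial
  obtain ⟨ψ, hψ⟩ : ∃ ψ : MulAut (Pi1 Γ G k), ψ = α ^ r.factorial := ⟨_, rfl⟩
  rw [← hψ] at hper hn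
  obtain ⟨e, he⟩ : ∃ e : MulAut G, ∀ δ, e δ = cN Γ G (ψ (iN Γ G k δ)) :=
    hper.exists_comp none hcl
  refine ⟨e, fun δ y => ?_⟩
  rw [he]
  have h1 := congrFun (hn (iN Γ G k δ)) (x.1, y, x.2.2)
  rw [Function.comp_apply, Function.comp_apply, ρ_iN] at h1
  exact congrArg (fun q => q.2.1) h1

end Comp

variable {W : Type} [MetricSpace W] {d r k : ℕ} {crd : W ≃ₜ (Fin d → ℝ)}
  {G : Subgroup (Equiv.Perm W)} {nrm : W → (Fin d → ℝ) → ℝ} {geo : ℝ → W → W → W}

/-- If every automorphism of `G` has an inner power then the component of `F^(r!)` in `N` is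
periodic. -/
theorem isPeriodic_of_rigid (hN : IsHadamard crd G nrm geo) {Γ : Fin r → Subgroup SL(2, ℝ)}
    (hΓ : ∀ i, IsSurfaceGroup (Γ i)) (hc : Subgroup.center G = ⊥)
    (hf : ∀ (i : Fin r) (K : Type) [Group K],
      IsEmpty (G ≃* ((Γ i).map (MulAction.toPermHom SL(2, ℝ) ℍ)) × K))
    (hR : ∀ α : MulAut G, ∃ n : ℕ, 0 < n ∧ ∃ δ : G, ∀ g, (α ^ n) g = δ * g * δ⁻¹)
    {F F' : X W r k → X W r k} (hF : IsDiffeoLift crd Γ G F F') (x : X W r k) :
    Stmt.IsPeriodic G (Stmt.compN F^[r !] x) := by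
  have hW : Nonempty W := ⟨crd.symm 0⟩
  have hFn : IsNormalizer Γ G F F' := ⟨hF.left_inv, hF.right_inv, hF.normalizes, hF.normalizes'⟩
  obtain ⟨e, he⟩ := exists_compN_auto hΓ (cl_of_center hc) (fun i => not_fac (hf i)) hFn x
  have he' : ∀ (δ : G) y, Stmt.compN F^[r !] x (δ.1 y) = (e δ).1 (Stmt.compN F^[r !] x y) := he
  have hn : ∀ (n : ℕ) (δ : G) y, (Stmt.compN F^[r !] x)^[n] (δ.1 y) =
      ((e ^ n) δ).1 ((Stmt.compN F^[r !] x)^[n] y) := by
    intro n
    induction n with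
    | zero => exact fun δ y => rfl
    | succ n ih =>
      intro δ y
      rw [Function.iterate_succ_apply, Function.iterate_succ_apply, he', ih, pow_succ]
      rfl
  obtain ⟨n, hn0, δ, hδ⟩ := hR e
  refine ⟨(main hN hΓ hc hf hF x).2.1, n, hn0, δ.1, δ.2, fun g hg y => ?_⟩
  have h1 := hn n ⟨g, hg⟩ y
  rw [hδ] at h1
  exact h1

/-- The theorem with a condition on `N`, for all powers which lift to the cover. -/
theorem final_rigid_all (hmain : MainStatement) (hN : IsHadamard crd G nrm geo)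
    (hrd : 0 < r ∨ 0 < d) {Γ : Fin r → Subgroup SL(2, ℝ)} (hΓ : ∀ i, IsSurfaceGroup (Γ i))
    (hc : Subgroup.center G = ⊥)
    (hf : ∀ (i : Fin r) (K : Type) [Group K],
      IsEmpty (G ≃* ((Γ i).map (MulAction.toPermHom SL(2, ℝ) ℍ)) × K))
    (hR : ∀ α : MulAut G, ∃ n : ℕ, 0 < n ∧ ∃ δ : G, ∀ g, (α ^ n) g = δ * g * δ⁻¹)
    {Λ : Subgroup (Equiv.Perm (X W r k))} (hΛ : IsFinitelyCovered crd Γ G Λ)
    {F : X W r k → X W r k} (hF : Stmt.IsAnosov crd Λ nrm F) :
    (∃ m : ℕ, 0 < m ∧ IsCoverMap Γ G F^[m]) ∧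
      ∀ m : ℕ, 0 < m → IsCoverMap Γ G F^[m] → ∀ x : X W r k,
        ¬ ∀ i, Stmt.HasNormalForm (Γ i) (Stmt.compS (F^[m])^[r !] x i) := by
  obtain ⟨h1, h2⟩ := final_cover hmain hN hrd hΓ hc hf hΛ hF
  refine ⟨h1, fun m hm h x hS => h2 m hm h x ⟨hS, ?_⟩⟩
  obtain ⟨F', P, hFd, -⟩ := isAnosovLift_pow hN hΛ hF hm h
  exact isPeriodic_of_rigid hN hΓ hc hf hR hFd x

/-- The theorem with a condition on `N`. -/
theorem final_rigid (hmain : MainStatement) (hN : IsHadamard crd G nrm geo)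
    (hrd : 0 < r ∨ 0 < d) {Γ : Fin r → Subgroup SL(2, ℝ)} (hΓ : ∀ i, IsSurfaceGroup (Γ i))
    (hc : Subgroup.center G = ⊥)
    (hf : ∀ (i : Fin r) (K : Type) [Group K],
      IsEmpty (G ≃* ((Γ i).map (MulAction.toPermHom SL(2, ℝ) ℍ)) × K))
    (hR : ∀ α : MulAut G, ∃ n : ℕ, 0 < n ∧ ∃ δ : G, ∀ g, (α ^ n) g = δ * g * δ⁻¹)
    {Λ : Subgroup (Equiv.Perm (X W r k))} (hΛ : IsFinitelyCovered crd Γ G Λ)
    {F : X W r k → X W r k} (hF : Stmt.IsAnosov crd Λ nrm F) :
    ∃ m : ℕ, 0 < m ∧ IsCoverMap Γ G F^[m] ∧ ∀ x : X W r k,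
      ¬ ∀ i, Stmt.HasNormalForm (Γ i) (Stmt.compS (F^[m])^[r !] x i) := by
  obtain ⟨⟨m, hm, h⟩, h2⟩ := final_rigid_all hmain hN hrd hΓ hc hf hR hΛ hF
  exact ⟨m, hm, h, h2 m hm h⟩

end Pool.Agent.ANO5.Aut
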