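import Pool.Agent.ANO5.Aut.Rigid

/-!
# The components in the surfaces are homotopy equivalences

The component of `F^(r!)` in the `i`-th surface is continuous and induces an automorphism of the
fundamental group of the surface, so it is a homotopy equivalence.
-/

set_option autoImplicit false
set_option linter.unusedSectionVars false

open scoped UpperHalfPlane MatrixGroups Nat
open Set

namespace Pool.Agent.ANO5.Aut

open Pool.Agent.ANO2.Stmt (act IsSurfaceGroup)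
open Pool.Agent.ANO5.Stmt (X IsDeck IsHadamard IsDiffeoLift IsFinitelyCovered IsCoverMap)

section Comp

variable {W : Type} {r k : ℕ} {Γ : Fin r → Subgroup SL(2, ℝ)} {G : Subgroup (Equiv.Perm W)}

/-- The component in the `i`-th surface induces an automorphism of its fundamental group. -/
theorem exists_compS_auto [Nonempty W] (hΓ : ∀ i, IsSurfaceGroup (Γ i)) (hcl : Cl G)
    (hfac : ∀ i, ¬ Fac (bar (Γ i)) G) {F F' : X W r k → X W r k} (hF : IsNormalizer Γ G F F')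
    (x : X W r k) (i : Fin r) :
    ∃ e : MulAut (bar (Γ i)), ∀ (γ : bar (Γ i)) z,
      compS F x i (γ.1 z) = (e γ).1 (compS F x i z) := by
  obtain ⟨α, hα⟩ := exists_auto hF
  have hper : Per (α ^ r.factorial : MulAut (Pi1 Γ G k)) (1 : Equiv.Perm (Option (Fin r))) := by
    have h := per_pow (G := Gp Γ G) (fun i => ct_bar (hΓ i)) (fun i => nc_bar (hΓ i)) hcl hfac α
    rwa [Fintype.card_fin] at h
  have hn := hα r.factorial
  obtain ⟨ψ, hψ⟩ : ∃ ψ : MulAut (Pi1 Γ G k), ψ = α ^ r.factorial := ⟨_, rfl⟩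
  rw [← hψ] at hper hn
  have hcli : Cl (Gp Γ G (some i)) := Cl.of_ct (ct_bar (hΓ i)) (nc_bar (hΓ i))
  obtain ⟨e, he⟩ : ∃ e : MulAut (bar (Γ i)), ∀ γ, e γ = cS Γ G (ψ (iS Γ G k i γ)) i :=
    hper.exists_comp (some i) hcli
  refine ⟨e, fun γ z => ?_⟩
  rw [he]
  have h1 := congrFun (hn (iS Γ G k i γ)) (Function.update x.1 i z, x.2)
  rw [Function.comp_apply, Function.comp_apply, ρ_iS] at h1
  exact congrFun (congrArg Prod.fst h1) i

end Comp

variable {W : Type} [MetricSpace W] {d r k : ℕ} {crd : W ≃ₜ (Fin d → ℝ)}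
  {G : Subgroup (Equiv.Perm W)} {nrm : W → (Fin d → ℝ) → ℝ} {geo : ℝ → W → W → W}

/-- The theorem with a condition on `N`; the components in the surfaces are homotopy
equivalences. -/
theorem final_selfMap (hmain : MainStatement) (hN : IsHadamard crd G nrm geo)
    (hrd : 0 < r ∨ 0 < d) {Γ : Fin r → Subgroup SL(2, ℝ)} (hΓ : ∀ i, IsSurfaceGroup (Γ i))
    (hc : Subgroup.center G = ⊥)
    (hf : ∀ (i : Fin r) (K : Type) [Group K],
      IsEmpty (G ≃* ((Γ i).map (MulAction.toPermHom SL(2, ℝ) ℍ)) × K))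
    (hR : ∀ α : MulAut G, ∃ n : ℕ, 0 < n ∧ ∃ δ : G, ∀ g, (α ^ n) g = δ * g * δ⁻¹)
    {Λ : Subgroup (Equiv.Perm (X W r k))} (hΛ : IsFinitelyCovered crd Γ G Λ)
    {F : X W r k → X W r k} (hF : Stmt.IsAnosov crd Λ nrm F) :
    ∃ m : ℕ, 0 < m ∧ IsCoverMap Γ G F^[m] ∧ ∀ x : X W r k,
      (∀ i, Continuous (Stmt.compS (F^[m])^[r !] x i) ∧
        ∃ e : MulAut ((Γ i).map (MulAction.toPermHom SL(2, ℝ) ℍ)), ∀ γ z,
          Stmt.compS (F^[m])^[r !] x i (γ.1 z) = (e γ).1 (Stmt.compS (F^[m])^[r !] x i z)) ∧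
      ¬ ∀ i, Stmt.HasNormalForm (Γ i) (Stmt.compS (F^[m])^[r !] x i) := by
  obtain ⟨⟨m, hm, h⟩, h2⟩ := final_rigid_all hmain hN hrd hΓ hc hf hR hΛ hF
  obtain ⟨F', P, hFd, -⟩ := isAnosovLift_pow hN hΛ hF hm h
  have hW : Nonempty W := ⟨crd.symm 0⟩
  have hFn : IsNormalizer Γ G F^[m] F' :=
    ⟨hFd.left_inv, hFd.right_inv, hFd.normalizes, hFd.normalizes'⟩
  refine ⟨m, hm, h, fun x => ⟨fun i => ⟨?_, ?_⟩, h2 m hm h x⟩⟩
  · exact continuous_compS (continuous_of_isC1 hN hFd.smooth) x i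
  · exact exists_compS_auto hΓ (cl_of_center hc) (fun i => not_fac (hf i)) hFn x i

end Pool.Agent.ANO5.Aut
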